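import Pool.Agent.Helper77.AU.LamLe
import Pool.Agent.Helper77.GS.Cl

/-!
# Almost units: from an inequality which fails to germs

If `∑ λ_D(y) ≤ (q - δ) h(y) + C` fails for all `δ > 0` and `C` on a set of points of degree `r`, there are points `y m` of this set with
`h(y m) → ∞` such that the norm forms are almost units with respect to `t m = h(y m)`.
-/

set_option autoImplicit false

namespace Pool.Agent.Helper77.AU

open NumberField IntermediateField Pool.Agent.Helper64.Vojta Pool.Agent.VZ Pool.Agent.SL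
open Filter Topology

universe u

variable {k : Type u} [Field k] [NumberField k]

/-- bounded sums over finite sets of places outside `S` -/
theorem out_le_of (S : Finset (Pl k)) {a : k} (ha : a ≠ 0) (B : ℝ)
    (h : ∀ T : Finset (FinitePlace k), (∀ v ∈ T, (Sum.inr v : Pl k) ∉ S) → ∑ v ∈ T, |Real.log (v a)| ≤ B) :
    out S.toRight a ≤ B := by
  classical
  have hF : (Function.support fun v : FinitePlace k =>
      offS S.toRight (fun v => |Real.log (nv v a)|) (.inr v)).Finite := finS_out S.toRight ha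
  have h1 : out S.toRight a = ∑ v ∈ hF.toFinset, |Real.log (v a)| := by
    unfold out Pool.Agent.V2.gsum
    have h2 : ∑ v : InfinitePlace k, offS S.toRight (fun v => |Real.log (nv v a)|) (.inl v) = 0 :=
      Finset.sum_eq_zero fun v _ => rfl
    rw [h2, zero_add, finsum_eq_sum_of_support_subset _ (s := hF.toFinset) (fun v hv => by simpa using hv)]
    refine Finset.sum_congr rfl fun v hv => ?_
    rw [Set.Finite.mem_toFinset, Function.mem_support] at hv
    by_cases hvS : v ∈ S.toRight
    · exact absurd (by simp [offS, hvS]) hv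
    · simp only [offS, hvS, if_false]
      rfl
  rw [h1]
  refine h _ fun v hv hvS => ?_
  rw [Set.Finite.mem_toFinset, Function.mem_support] at hv
  apply hv
  have : v ∈ S.toRight := Finset.mem_toRight.2 hvS
  simp [offS, this]

/-- a germ which is algebraic over the slow germs -/
theorem exists_slow_root {U : Ultrafilter ℕ} {t : ℕ → ℝ} {ht : Tendsto t U atTop} (z : ℕ → AlgebraicClosure k)
    (hz : IsAlgebraic (slowK (k := k) U t ht) (gm U z)) :
    ∃ (d : ℕ) (s : Fin d → ℕ → k), (∀ i, Slow U t (s i)) ∧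
      ∀ᶠ m in (U : Filter ℕ), z m ^ d = ∑ i : Fin d, algebraMap k (AlgebraicClosure k) (s i m) * z m ^ (i : ℕ) := by
  classical
  set p := minpoly (slowK (k := k) U t ht) (gm U z) with hp
  have hmonic : p.Monic := minpoly.monic hz.isIntegral
  have hroot : Polynomial.aeval (gm U z) p = 0 := minpoly.aeval _ _
  have hc : ∀ i, ∃ s : ℕ → k, Slow U t s ∧ gk U s = -(algebraMap (slowK (k := k) U t ht) (Om k U) (p.coeff i)) := by
    intro i
    exact (mem_slowK (k := k)).1 (neg_mem (p.coeff i).2)
  choose s hs hsp using hc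
  refine ⟨p.natDegree, fun i => s i, fun i => hs i, ?_⟩
  have h1 : gm U z ^ p.natDegree = ∑ i : Fin p.natDegree, gk U (s i) * gm U z ^ (i : ℕ) := by
    have h2 := hroot
    rw [Polynomial.aeval_eq_sum_range, Finset.sum_range_succ, hmonic.coeff_natDegree, one_smul] at h2
    have h3 : ∑ i : Fin p.natDegree, gk U (s i) * gm U z ^ (i : ℕ) =
        - ∑ i ∈ Finset.range p.natDegree, p.coeff i • gm U z ^ i := by
      rw [← Finset.sum_neg_distrib,
        ← Fin.sum_univ_eq_sum_range (fun i => -(p.coeff i • gm U z ^ i)) p.natDegree]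
      refine Finset.sum_congr rfl fun i _ => ?_
      rw [hsp, Algebra.smul_def, neg_mul]
    rw [h3]
    linear_combination h2
  have h4 : gm U (fun m => z m ^ p.natDegree) =
      gm U (fun m => ∑ i : Fin p.natDegree, algebraMap k (AlgebraicClosure k) (s i m) * z m ^ (i : ℕ)) := by
    have h5 : (fun m => z m ^ p.natDegree) = z ^ p.natDegree := rfl
    have h6 : (fun m => ∑ i : Fin p.natDegree, algebraMap k (AlgebraicClosure k) (s i m) * z m ^ (i : ℕ)) =
        ∑ i : Fin p.natDegree, (fun m => algebraMap k (AlgebraicClosure k) (s i m)) * z ^ (i : ℕ) := by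
      funext m
      rw [Finset.sum_apply]
      rfl
    rw [h5, h6, map_pow, map_sum, h1]
    refine Finset.sum_congr rfl fun i _ => ?_
    rw [map_mul, map_pow]
    rfl
  rwa [gm_eq] at h4

theorem glue (S : Finset (Pl k)) {n q : ℕ} (r : ℕ) (ℓ : Fin q → Fin (n + 1) → k) (i₀ : Fin q)
    (P : (Fin n → AlgebraicClosure k) → Prop)
    (hno : ∀ δ C : ℝ, 0 < δ → ∃ y, P y ∧ dg y = r ∧
      (∀ i, ∑ j, algebraMap k (fld y) (ℓ i j) * crd y j ≠ 0) ∧ (q - δ) * hgt y + C < lam ℓ S y) :
    ∃ (U : Ultrafilter ℕ) (t : ℕ → ℝ) (ht : Tendsto t U atTop)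
      (D : Dat (slowK (k := k) U t ht) (Om k U)) (y : ℕ → Fin n → AlgebraicClosure k)
      (X : Fin r → Fin (n + 1) → Om k U) (s0 : Fin r) (c : Om k U),
      (∀ m, P (y m)) ∧ (∀ m, dg (y m) = r) ∧ c ≠ 0 ∧
      (∀ j, X s0 j = c * gm U fun m => (Fin.cons 1 (y m) : Fin (n + 1) → AlgebraicClosure k) j) ∧
      (∀ (σ : Fin r) (d : ℕ) (f : MvPolynomial (Fin (n + 1)) k), f.IsHomogeneous d →
        (∀ᶠ m in (U : Filter ℕ), MvPolynomial.aeval (Fin.cons 1 (y m) : Fin (n + 1) → AlgebraicClosure k) f = 0) →
          MvPolynomial.aeval (X σ) f = 0) ∧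
      (∀ i, D.U (GS.uu (fun i j => algebraMap k (slowK (k := k) U t ht) (ℓ i j)) X i)) ∧
      (1 : ℕ∞) ≤ GS.rk (slowK (k := k) U t ht) (GS.Rat (X s0)) := by
  classical
  obtain ⟨c₁, hc₁, hunits⟩ := Pool.Agent.EXP.units_plus_r S r ℓ i₀
  obtain ⟨c₀, hc₀, hlam⟩ := lam_le S r ℓ
  choose y hyP hyr hyD hyN using fun m : ℕ => hno (1 / ((m : ℝ) + 1)) m (by positivity)
  -- the heights
  have hh : ∀ m : ℕ, ((m : ℝ) + 1) * (m - c₀) < hgt (y m) := by
    intro m
    have h1 := hyN m
    have h2 := hlam (y m) (hyr m).le (hyD m)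
    have h3 : (0 : ℝ) < (m : ℝ) + 1 := by positivity
    have h4 : (m : ℝ) - c₀ < hgt (y m) / (m + 1) := by
      have : ((q : ℝ) - 1 / ((m : ℝ) + 1)) * hgt (y m) = q * hgt (y m) - hgt (y m) / (m + 1) := by
        field_simp
      rw [this] at h1
      linarith
    rwa [lt_div_iff₀ h3, mul_comm] at h4
  have hE : ∀ m : ℕ, 0 ≤ hgt (y m) / ((m : ℝ) + 1) := fun m => div_nonneg (hgt_nonneg _) (by positivity)
  have hNE : ∀ m : ℕ, q * hgt (y m) - hgt (y m) / ((m : ℝ) + 1) ≤ lam ℓ S (y m) := by
    intro m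
    have h1 := hyN m
    have : ((q : ℝ) - 1 / ((m : ℝ) + 1)) * hgt (y m) = q * hgt (y m) - hgt (y m) / (m + 1) := by
      field_simp
    rw [this] at h1
    have : (0 : ℝ) ≤ m := Nat.cast_nonneg m
    linarith
  choose x s c' u hc' hxs hx1 hxu hxh hxT hxf using fun m => hunits (y m) _ (hyr m) (hE m) (hyD m) (hNE m)
  set U : Ultrafilter ℕ := Filter.hyperfilter ℕ with hU
  have hUtop : (U : Filter ℕ) ≤ atTop := by
    rw [← Nat.cofinite_eq_atTop]
    exact Filter.hyperfilter_le_cofinite
  set t : ℕ → ℝ := fun m => hgt (y m) with htdef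
  have ht0 : Tendsto t atTop atTop := by
    refine tendsto_atTop_mono' _ (f₁ := fun m : ℕ => (m : ℝ) - c₀) ?_ ?_
    · obtain ⟨N, hN⟩ := exists_nat_ge c₀
      filter_upwards [eventually_ge_atTop N] with m hm
      have h1 := hh m
      have h2 : (0 : ℝ) ≤ (m : ℝ) - c₀ := by
        have : (N : ℝ) ≤ m := by exact_mod_cast hm
        linarith
      have h3 : (0 : ℝ) ≤ m := Nat.cast_nonneg m
      have h4 : (m : ℝ) - c₀ ≤ ((m : ℝ) + 1) * (m - c₀) := by nlinarith
      exact h4.trans h1.le
    · exact tendsto_atTop_add_const_right _ _ tendsto_natCast_atTop_atTop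
  have ht : Tendsto t U atTop := ht0.mono_left hUtop
  have htpos : ∀ᶠ m in (U : Filter ℕ), 0 < t m := ht.eventually_gt_atTop 0
  obtain ⟨s0, hs0⟩ := Pool.Agent.Helper26.DMC.SU1.ult_finite U (Set.univ : Set (Fin r))
    Set.finite_univ s (Eventually.of_forall fun _ => Set.mem_univ _)
  obtain ⟨D, hD1, hD2⟩ := slow_dat (k := k) U S.toRight t ht
  -- almost units
  have hAU : ∀ i, AU U S.toRight t (fun m => u m i) := by
    intro i
    refine ⟨Eventually.of_forall fun m => (hxu m i).1, ?_⟩
    have h1 : Tendsto (fun m : ℕ => c₁ * (1 / ((m : ℝ) + 1)) + c₁ / t m) U (𝓝 (c₁ * 0 + 0)) := by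
      refine ((tendsto_one_div_add_atTop_nhds_zero_nat (𝕜 := ℝ)).mono_left hUtop |>.const_mul c₁).add ?_
      exact tendsto_const_nhds.div_atTop ht
    rw [mul_zero, add_zero] at h1
    refine tendsto_zero_of_le ?_ ?_ h1
    · filter_upwards [htpos] with m hm
      exact div_nonneg (out_nonneg _ _) hm.le
    · filter_upwards [htpos] with m hm
      have h2 := out_le_of S (hxu m i).1 _ (hxT m i)
      have h3 : c₁ * (hgt (y m) / ((m : ℝ) + 1) + 1) / t m = c₁ * (1 / ((m : ℝ) + 1)) + c₁ / t m := by
        have h4 : t m ≠ 0 := hm.ne'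
        show c₁ * (t m / ((m : ℝ) + 1) + 1) / t m = _
        field_simp
      rw [← h3]
      exact div_le_div_of_nonneg_right h2 hm.le
  let X : Fin r → Fin (n + 1) → Om k U := fun σ j => gm U fun m => x m σ j
  have hlin : ∀ (l : Fin (n + 1) → k) (z : ℕ → Fin (n + 1) → AlgebraicClosure k),
      GS.lin (K := Om k U) (fun j => algebraMap k (slowK (k := k) U t ht) (l j)) (fun i => gm U fun m => z m i) =
        gm U fun m => ∑ j, algebraMap k (AlgebraicClosure k) (l j) * z m j := by
    intro l z
    unfold GS.lin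
    have h : (fun m => ∑ j, algebraMap k (AlgebraicClosure k) (l j) * z m j) =
        ∑ j, (fun _ : ℕ => algebraMap k (AlgebraicClosure k) (l j)) * fun m => z m j := by
      funext m
      rw [Finset.sum_apply]
      rfl
    rw [h, map_sum]
    exact Finset.sum_congr rfl fun j _ => by rw [map_mul]; rfl
  have huu : ∀ i, GS.uu (fun i j => algebraMap k (slowK (k := k) U t ht) (ℓ i j)) X i = gk U fun m => u m i := by
    intro i
    unfold GS.uu gk
    have h : (fun m => algebraMap k (AlgebraicClosure k) (u m i)) =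
        ∏ σ, fun m => ∑ j, algebraMap k (AlgebraicClosure k) (ℓ i j) * x m σ j := by
      funext m
      rw [Finset.prod_apply]
      exact (hxu m i).2
    rw [h, map_prod]
    exact Finset.prod_congr rfl fun σ _ => hlin (ℓ i) fun m => x m σ
  have hc0 : gm U c' ≠ 0 := by
    intro h
    rw [gm_zero] at h
    obtain ⟨m, hm⟩ := h.exists
    exact hc' m hm
  have hXs0 : ∀ j, X s0 j = gm U c' * gm U fun m => (Fin.cons 1 (y m) : Fin (n + 1) → AlgebraicClosure k) j := by
    intro j
    rw [← map_mul]
    show gm U (fun m => x m s0 j) = _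
    rw [gm_eq]
    filter_upwards [hs0] with m hm
    rw [← hm]
    exact hxs m j
  refine ⟨U, t, ht, D, y, X, s0, gm U c', hyP, hyr, hc0, hXs0, ?_, ?_, ?_⟩
  · intro σ d f hf h0
    show MvPolynomial.aeval (fun j => gm U fun m => x m σ j) f = 0
    have haev : MvPolynomial.aeval (fun j => gm U fun m => x m σ j) f =
        gm U fun m => MvPolynomial.aeval (x m σ) f := by
      clear hf h0
      induction f using MvPolynomial.induction_on with
      | C a =>
        rw [MvPolynomial.aeval_C]
        have h : (fun m => (MvPolynomial.aeval (x m σ)) (MvPolynomial.C a)) =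
            fun _ : ℕ => algebraMap k (AlgebraicClosure k) a := by
          funext m
          exact MvPolynomial.aeval_C _ _
        rw [h]
        rfl
      | add p q hp hq =>
        rw [map_add, hp, hq, ← map_add]
        congr 1
        funext m
        rw [Pi.add_apply, map_add]
      | mul_X p i hp =>
        rw [map_mul, hp, MvPolynomial.aeval_X, ← map_mul]
        congr 1
        funext m
        rw [Pi.mul_apply, map_mul, MvPolynomial.aeval_X]
    rw [haev, gm_zero]
    filter_upwards [h0] with m hm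
    exact hxf m σ d f hf hm
  · intro i
    rw [hD2]
    exact ⟨_, hAU i, (huu i).symm⟩
  · by_contra hcon
    rw [not_le, ENat.lt_one_iff_eq_zero] at hcon
    have halg : ∀ j : Fin n, IsAlgebraic (slowK (k := k) U t ht) (gm U fun m => y m j) := by
      intro j
      have h1 : (gm U fun m => y m j) ∈ GS.Rat (X s0) := by
        refine ⟨j.succ, 0, ?_⟩
        rw [hXs0, hXs0]
        have h2 : (gm U fun m => (Fin.cons 1 (y m) : Fin (n + 1) → AlgebraicClosure k) 0) = 1 := map_one (gm U)
        rw [h2, mul_one, mul_div_cancel_left₀ _ hc0]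
        rfl
      have h3 : GS.Rat (X s0) ⊆ GS.cl (slowK (k := k) U t ht) ∅ := by
        unfold GS.cl
        unfold GS.rk at hcon
        rw [Matroid.eRk_eq_zero_iff'] at hcon
        exact fun z hz => hcon ⟨hz, by simp⟩
      have h4 := h3 h1
      rw [GS.mem_cl, Algebra.adjoin_empty] at h4
      exact Subalgebra.isAlgebraic_of_isAlgebraic_bot h4
    choose d a ha hda using fun j => exists_slow_root _ (halg j)
    have hda' : ∀ᶠ m in (U : Filter ℕ), ∀ j, y m j ^ d j =
        ∑ i : Fin (d j), algebraMap k (AlgebraicClosure k) (a j i m) * y m j ^ (i : ℕ) := by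
      rw [Filter.eventually_all]
      exact hda
    have hB : ∀ᶠ m in (U : Filter ℕ), t m ≤ ∑ j, (∑ i, Height.logHeight₁ (a j i m) +
        Module.finrank ℚ k * Real.log (d j)) := by
      filter_upwards [hda'] with m hm
      exact hgt_le (y m) d (fun j i => a j i m) hm
    have hT : Tendsto (fun m => (∑ j, (∑ i, Height.logHeight₁ (a j i m) +
        Module.finrank ℚ k * Real.log (d j))) / t m) U (𝓝 0) := by
      have h1 : Tendsto (fun m => ∑ j, (∑ i, Height.logHeight₁ (a j i m) / t m +
          (Module.finrank ℚ k * Real.log (d j)) / t m)) U (𝓝 (∑ j : Fin n, (∑ _i : Fin (d j), (0 : ℝ) + 0))) := by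
        refine tendsto_finsetSum _ fun j _ => (tendsto_finsetSum _ fun i _ => ha j i).add ?_
        exact tendsto_const_nhds.div_atTop ht
      simp only [Finset.sum_const_zero, add_zero] at h1
      refine (tendsto_congr fun m => ?_).mp h1
      rw [Finset.sum_div]
      refine Finset.sum_congr rfl fun j _ => ?_
      rw [add_div, Finset.sum_div]
    have h2 := hT.eventually (Iio_mem_nhds (show (0 : ℝ) < 1 by norm_num))
    obtain ⟨m, hm1, hm2, hm3⟩ := (hB.and (h2.and htpos)).exists
    have h3 : (∑ j, (∑ i, Height.logHeight₁ (a j i m) + Module.finrank ℚ k * Real.log (d j))) / t m < 1 := hm2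
    rw [div_lt_one hm3] at h3
    linarith

end Pool.Agent.Helper77.AU
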