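import Pool.Agent.Helper77.AU.Germs
import Pool.Agent.Helper52.Vojta.BaseChange
import Pool.Agent.Helper64.VZ.Defs

/-!
# Heights of roots

If the affine coordinates of a point `y` satisfy monic equations over `k`, its height is bounded by the heights of the coefficients.
-/

set_option autoImplicit false

namespace Pool.Agent.Helper77.AU

open NumberField IntermediateField
open Pool.Agent.V2
open Pool.Agent.Helper64.Vojta (Pl nv)
open Pool.Agent.Helper26.DMC
open Pool.Agent.Helper64.Vojta (nv_nonneg nv_mul nv_one nv_zero nv_pos nv_inv)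

universe u

section

variable {K : Type*} [Field K] [NumberField K]

theorem log_vn_cons (v : Pl K) {n : ℕ} (z : Fin n → K) :
    Real.log (vn v (Fin.cons 1 z : Fin (n + 1) → K)) ≤ ∑ i, max 0 (Real.log (nv v (z i))) := by
  have h0 : (0 : ℝ) ≤ ∑ i, max 0 (Real.log (nv v (z i))) := Finset.sum_nonneg fun i _ => le_max_left _ _
  have hne : (Fin.cons 1 z : Fin (n + 1) → K) ≠ 0 := by
    intro h
    have := congrFun h 0
    simp at this
  have h1 : vn v (Fin.cons 1 z : Fin (n + 1) → K) ≤ Real.exp (∑ i, max 0 (Real.log (nv v (z i)))) := by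
    refine vn_le v _ (Real.exp_pos _).le fun i => ?_
    refine Fin.cases ?_ (fun i => ?_) i
    · rw [Fin.cons_zero, nv_one]
      exact Real.one_le_exp h0
    · rw [Fin.cons_succ]
      by_cases hz : z i = 0
      · rw [hz, nv_zero]
        exact (Real.exp_pos _).le
      · rw [← Real.log_le_iff_le_exp (nv_pos v hz)]
        exact (le_max_right 0 _).trans
          (Finset.single_le_sum (f := fun i => max 0 (Real.log (nv v (z i)))) (fun i _ => le_max_left _ _)
            (Finset.mem_univ i))
  rwa [Real.log_le_iff_le_exp (vn_pos v hne)]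

theorem logHeight₁_eq (z : K) : Height.logHeight₁ z = gsum fun v => max 0 (Real.log (nv v z)) := by
  have hne0 : (![z, 1] : Fin 2 → K) ≠ 0 := by
    intro h
    have := congrFun h 1
    simp at this
  rw [Height.logHeight₁_eq_logHeight, ← vH_eq hne0]
  unfold vH
  congr 1
  funext v
  apply le_antisymm
  · have h1 : vn v ![z, 1] ≤ Real.exp (max 0 (Real.log (nv v z))) := by
      refine vn_le v _ (Real.exp_pos _).le fun i => ?_
      fin_cases i
      · show nv v z ≤ _
        by_cases hz : z = 0
        · rw [hz, nv_zero]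
          exact (Real.exp_pos _).le
        · rw [← Real.log_le_iff_le_exp (nv_pos v hz)]
          exact le_max_right _ _
      · show nv v (1 : K) ≤ _
        rw [nv_one]
        exact Real.one_le_exp (le_max_left _ _)
    rwa [Real.log_le_iff_le_exp (vn_pos v hne0)]
  · refine max_le ?_ ?_
    · refine Real.log_nonneg ?_
      have := le_vn v ![z, 1] 1
      simpa [nv_one] using this
    · by_cases hz : z = 0
      · rw [hz, nv_zero, Real.log_zero]
        refine Real.log_nonneg ?_
        have := le_vn v ![(0 : K), 1] 1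
        simpa [nv_one] using this
      · exact Real.log_le_log (nv_pos v hz) (le_vn v ![z, 1] 0)

/-- the height of a point with a coordinate `1` -/
theorem logHeight_cons_le {n : ℕ} (z : Fin n → K) :
    Height.logHeight (Fin.cons 1 z : Fin (n + 1) → K) ≤ ∑ i, Height.logHeight₁ (z i) := by
  have hne : (Fin.cons 1 z : Fin (n + 1) → K) ≠ 0 := by
    intro h
    have := congrFun h 0
    simp at this
  rw [← vH_eq hne]
  simp_rw [logHeight₁_eq]
  rw [← gsum_sum _ fun i _ => finS_pos' (z i)]
  exact gsum_mono (finS_vn hne) (FinS.sum _ fun i _ => finS_pos' (z i)) fun v => log_vn_cons v z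

/-- the height of a root -/
theorem root_le {d : ℕ} (z : K) (a : Fin d → K) (h : z ^ d = ∑ i : Fin d, a i * z ^ (i : ℕ)) :
    Height.logHeight₁ z ≤ ∑ i, Height.logHeight₁ (a i) + Module.finrank ℚ K * Real.log d := by
  classical
  rcases Nat.eq_zero_or_pos d with hd | hd
  · subst hd
    simp at h
  have hd1 : (1 : ℝ) ≤ d := by exact_mod_cast hd
  have hlog : 0 ≤ Real.log d := Real.log_nonneg hd1
  simp_rw [logHeight₁_eq]
  have hk : gsum (fun v => SU1.kap (K := K) d v) = Module.finrank ℚ K * Real.log d := by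
    rw [← gsum_inf (K := K) (Real.log d)]
    congr 1
  rw [← gsum_sum _ fun i _ => finS_pos' (a i), ← hk]
  have hF : FinS (K := K) (fun v => SU1.kap (K := K) d v) := SU1.finS_kap d
  rw [← gsum_add (FinS.sum _ fun i _ => finS_pos' (a i)) hF]
  refine gsum_mono (finS_pos' z) ((FinS.sum _ fun i _ => finS_pos' (a i)).add hF) fun v => ?_
  have hA0 : 0 ≤ ∑ i, max 0 (Real.log (nv v (a i))) := Finset.sum_nonneg fun i _ => le_max_left _ _
  have hM0 : (0 : ℝ) ≤ SU1.kap (K := K) d v := by
    rcases v with v | v
    · exact mul_nonneg (Nat.cast_nonneg _) hlog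
    · exact le_rfl
  refine max_le (add_nonneg hA0 hM0) ?_
  by_cases hz1 : nv v z ≤ 1
  · exact (Real.log_nonpos (nv_nonneg v z) hz1).trans (add_nonneg hA0 hM0)
  push Not at hz1
  have hz0 : z ≠ 0 := by
    intro h0
    rw [h0, nv_zero] at hz1
    linarith
  have hzz : z = ∑ i : Fin d, a i * (z ^ (i : ℕ) / z ^ (d - 1)) := by
    have h1 : z = z ^ d / z ^ (d - 1) := by
      rw [eq_div_iff (pow_ne_zero _ hz0), ← pow_succ']
      congr 1
      omega
    conv_lhs => rw [h1, h]
    rw [Finset.sum_div]
    exact Finset.sum_congr rfl fun i _ => by rw [mul_div_assoc]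
  set B : ℝ := Real.exp (∑ i, max 0 (Real.log (nv v (a i)))) with hB
  have hB0 : 0 ≤ B := (Real.exp_pos _).le
  have hterm : ∀ i ∈ (Finset.univ : Finset (Fin d)), nv v (a i * (z ^ (i : ℕ) / z ^ (d - 1))) ≤ B := by
    intro i _
    have h1 : nv v (a i) ≤ B := by
      by_cases ha : a i = 0
      · rw [ha, nv_zero]
        exact hB0
      · rw [hB, ← Real.log_le_iff_le_exp (nv_pos v ha)]
        exact (le_max_right 0 _).trans
          (Finset.single_le_sum (f := fun i => max 0 (Real.log (nv v (a i)))) (fun i _ => le_max_left _ _)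
            (Finset.mem_univ i))
    have h2 : nv v (z ^ (i : ℕ) / z ^ (d - 1)) ≤ 1 := by
      have h3 : z ^ (i : ℕ) / z ^ (d - 1) = (z ^ (d - 1 - i))⁻¹ := by
        have h4 : z ^ (d - 1) = z ^ (i : ℕ) * z ^ (d - 1 - i) := by
          rw [← pow_add]
          congr 1
          have := i.2
          omega
        rw [h4]
        field_simp
      have h5 : ∀ e : ℕ, 1 ≤ nv v (z ^ e) := by
        intro e
        induction e with
        | zero => rw [pow_zero, nv_one]
        | succ e ih =>
          rw [pow_succ, nv_mul]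
          nlinarith
      rw [h3, nv_inv]
      exact inv_le_one_of_one_le₀ (h5 _)
    rw [nv_mul]
    calc nv v (a i) * nv v (z ^ (i : ℕ) / z ^ (d - 1)) ≤ B * 1 :=
          mul_le_mul h1 h2 (nv_nonneg _ _) hB0
      _ = B := mul_one B
  rcases v with v | v
  · have h1 := nv_sum_inl v Finset.univ (fun i : Fin d => a i * (z ^ (i : ℕ) / z ^ (d - 1))) hB0 hterm
    rw [← hzz, Finset.card_univ, Fintype.card_fin] at h1
    have h2 := Real.log_le_log (nv_pos _ hz0) h1
    rw [Real.log_mul (by positivity) (Real.exp_pos _).ne', Real.log_pow, Real.log_exp] at h2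
    show _ ≤ _ + (v.mult * Real.log d)
    linarith
  · have h1 := nv_sum_inr v Finset.univ (fun i : Fin d => a i * (z ^ (i : ℕ) / z ^ (d - 1))) hB0 hterm
    rw [← hzz] at h1
    have h2 := Real.log_le_log (nv_pos _ hz0) h1
    rw [hB, Real.log_exp] at h2
    show _ ≤ _ + (0 : ℝ)
    linarith

end

section

variable {k : Type u} [Field k] [NumberField k]

theorem logHeight₁_algebraMap {L : Type u} [Field L] [NumberField L] [Algebra k L] (a : k) :
    Height.logHeight₁ (algebraMap k L a) = Module.finrank k L * Height.logHeight₁ a := by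
  have hne0 : (![a, 1] : Fin 2 → k) ≠ 0 := by
    intro h
    have := congrFun h 1
    simp at this
  have h := Pool.Agent.Helper52.Vojta.logHeight_algebraMap (L := k) (L' := L) hne0
  rw [Height.logHeight₁_eq_logHeight, Height.logHeight₁_eq_logHeight, ← h]
  congr 1
  funext i
  fin_cases i
  · rfl
  · exact (map_one (algebraMap k L)).symm

/-- the height of a point whose affine coordinates satisfy monic equations over `k` -/
theorem hgt_le {n : ℕ} (y : Fin n → AlgebraicClosure k) (d : Fin n → ℕ) (a : ∀ j, Fin (d j) → k)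
    (h : ∀ j, y j ^ d j = ∑ i : Fin (d j), algebraMap k (AlgebraicClosure k) (a j i) * y j ^ (i : ℕ)) :
    Pool.Agent.VZ.hgt y ≤ ∑ j, (∑ i, Height.logHeight₁ (a j i) + Module.finrank ℚ k * Real.log (d j)) := by
  have hfd : FiniteDimensional k (Pool.Agent.VZ.fld y) :=
    finiteDimensional_adjoin fun x _ => Algebra.IsIntegral.isIntegral x
  have hdg : (0 : ℝ) < Pool.Agent.VZ.dg y := by
    have : 0 < Module.finrank k (Pool.Agent.VZ.fld y) := Module.finrank_pos
    exact_mod_cast this
  unfold Pool.Agent.VZ.hgt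
  rw [div_le_iff₀ hdg]
  let z : Fin n → Pool.Agent.VZ.fld y := fun i => ⟨y i, subset_adjoin k _ (Set.mem_range_self i)⟩
  have h1 : Height.logHeight (Pool.Agent.VZ.crd y) ≤ ∑ i, Height.logHeight₁ (z i) :=
    logHeight_cons_le z
  refine h1.trans ?_
  rw [Finset.sum_mul]
  refine Finset.sum_le_sum fun j _ => ?_
  have h2 : z j ^ d j = ∑ i : Fin (d j), algebraMap k (Pool.Agent.VZ.fld y) (a j i) * z j ^ (i : ℕ) := by
    apply Subtype.ext
    push_cast
    exact h j
  have h3 := root_le (z j) (fun i => algebraMap k (Pool.Agent.VZ.fld y) (a j i)) h2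
  refine h3.trans (le_of_eq ?_)
  simp_rw [logHeight₁_algebraMap]
  rw [← Finset.mul_sum, ← Module.finrank_mul_finrank ℚ k (Pool.Agent.VZ.fld y)]
  unfold Pool.Agent.VZ.dg
  push_cast
  ring

end

end Pool.Agent.Helper77.AU
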