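import Pool.Agent.Helper77.AU.Core

/-!
# Almost units with a fixed small defect

The same as `core1`, where `∑_{v ∉ S} |log |a j|_v| ≤ ε t j` with a fixed small `ε` (depending only on the number of terms) replaces
`o(t j)`.
-/

set_option autoImplicit false

namespace Pool.Agent.Helper77.AU

open NumberField
open Pool.Agent.V2
open Pool.Agent.Helper64.Vojta (Pl nv)
open Pool.Agent.Helper26.DMC
open Filter Topology
open Pool.Agent.Helper64.Vojta (nv_nonneg nv_mul nv_one nv_zero nv_pos nv_inv)

variable {K : Type*} [Field K] [NumberField K]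

/-- the place is infinite or in `S` -/
def InP (S : Finset (FinitePlace K)) : Pl K → Prop
  | .inl _ => True
  | .inr v => v ∈ S

/-- limits of sums over all places -/
theorem tend_inE {U : Ultrafilter ℕ} (S : Finset (FinitePlace K)) (f : ℕ → Pl K → ℝ) (t : ℕ → ℝ) (δ L : ℝ)
    (e : Pl K → ℝ) (hF : ∀ᶠ j in (U : Filter ℕ), FinS (f j)) (ht : ∀ᶠ j in (U : Filter ℕ), 0 < t j)
    (hoff : ∀ᶠ j in (U : Filter ℕ), |gsum (offS S (f j))| ≤ δ * t j)
    (he : ∀ v : FinitePlace K, v ∉ S → e (.inr v) = 0)
    (h : ∀ v, InP S v → Tendsto (fun j => f j v / t j) U (𝓝 (e v)))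
    (hL : Tendsto (fun j => gsum (f j) / t j) U (𝓝 L)) : |L - gsum e| ≤ δ := by
  have h1 : Tendsto (fun j => gsum (inS S (f j)) / t j) U (𝓝 (gsum e)) := by
    rw [SU1.gsum_eq_of_S S e he]
    have h2 : (fun j => gsum (inS S (f j)) / t j) =
        fun j => ∑ v : InfinitePlace K, f j (.inl v) / t j + ∑ v ∈ S, f j (.inr v) / t j := by
      funext j
      rw [SU1.gsum_eq_of_S S _ (fun v hv => by simp [inS, hv]), add_div, Finset.sum_div, Finset.sum_div]
      congr 1
      exact Finset.sum_congr rfl fun v hv => by simp [inS, hv]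
    rw [h2]
    exact (tendsto_finsetSum _ fun v _ => h (.inl v) trivial).add (tendsto_finsetSum _ fun v hv => h (.inr v) hv)
  have h3 := (hL.sub h1).abs
  refine le_of_tendsto h3 ?_
  filter_upwards [hF, ht, hoff] with j hj htj hoffj
  rw [← sub_div, gsum_split S hj, add_sub_cancel_left, abs_div, abs_of_pos htj, div_le_iff₀ htj]
  exact hoffj

theorem expsE (U : Ultrafilter ℕ) (S : Finset (FinitePlace K)) (t : ℕ → ℝ) (a : ℕ → K) (δ : ℝ)
    (ha : ∀ᶠ j in (U : Filter ℕ), a j ≠ 0 ∧ out S (a j) ≤ δ * t j) (ht : Tendsto t U atTop) (C : Pl K → ℝ)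
    (hb : ∀ v, ∀ᶠ j in (U : Filter ℕ), |Real.log (nv v (a j))| ≤ C v + t j) :
    ∃ e : Pl K → ℝ, (∀ v : FinitePlace K, v ∉ S → e (.inr v) = 0) ∧
      (∀ v, InP S v → Tendsto (fun j => Real.log (nv v (a j)) / t j) U (𝓝 (e v))) ∧ |gsum e| ≤ δ := by
  classical
  have h1 : ∀ v, ∃ e, Tendsto (fun j => Real.log (nv v (a j)) / t j) U (𝓝 e) := by
    intro v
    refine SU1.lim_bdd U _ (|C v| + 1) ?_
    filter_upwards [hb v, ht.eventually_ge_atTop 1] with j hj htj
    have h0 : 0 < t j := by linarith
    rw [abs_div, abs_of_pos h0, div_le_iff₀ h0]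
    have : |C v| ≤ |C v| * t j := le_mul_of_one_le_right (abs_nonneg _) htj
    have := le_abs_self (C v)
    linarith
  choose e he using h1
  have htpos : ∀ᶠ j in (U : Filter ℕ), 0 < t j := ht.eventually_gt_atTop 0
  have h2 : ∀ v : FinitePlace K, v ∉ S → inS S e (.inr v) = 0 := fun v hv => by simp [inS, hv]
  have h3 : ∀ v, InP S v → inS S e v = e v := by
    rintro (v | v) hv
    · rfl
    · have : v ∈ S := hv
      simp [inS, this]
  have h4 : ∀ v, InP S v → Tendsto (fun j => Real.log (nv v (a j)) / t j) U (𝓝 (inS S e v)) := by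
    intro v hv
    rw [h3 v hv]
    exact he v
  refine ⟨inS S e, h2, h4, ?_⟩
  have h5 := tend_inE S (fun j v => Real.log (nv v (a j))) t δ 0 (inS S e)
    (by filter_upwards [ha] with j hj using finS_nv hj.1) htpos
    (by
      filter_upwards [ha] with j hj
      refine le_trans (abs_gsum_le (finS_offS S (finS_nv hj.1)) (finS_out S hj.1) fun v => ?_) hj.2
      rcases v with v | v
      · simp [offS]
      · by_cases h : v ∈ S <;> simp [offS, h]) h2 h4 (by
      refine (tendsto_congr' ?_).mpr tendsto_const_nhds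
      filter_upwards [ha] with j hj
      rw [gsum_nv hj.1, zero_div])
  rwa [zero_sub, abs_neg] at h5

theorem core1e (U : Ultrafilter ℕ) (S : Finset (FinitePlace K)) {r : ℕ} (y : ℕ → Fin r → K)
    (i0 : Fin r) (h1 : ∀ j, y j i0 = 1) (ε₀ : ℝ) (hε₀ : ε₀ * (8 * r * (r + 1)) ≤ 1)
    (hy : ∀ i, ∀ᶠ j in (U : Filter ℕ), y j i ≠ 0 ∧ out S (y j i) ≤ ε₀ * vH (y j))
    (b : Fin r → K) (hb : ∀ i, b i ≠ 0)
    (hz : ∀ᶠ j in (U : Filter ℕ), ∑ i, b i * y j i ≠ 0 ∧ out S (∑ i, b i * y j i) ≤ ε₀ * vH (y j))
    (ht : Tendsto (fun j => vH (y j)) U atTop) :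
    ∃ W : Submodule K (Fin r → K), W ≠ ⊤ ∧ ∀ᶠ j in (U : Filter ℕ), y j ∈ W := by
  classical
  have hr : 0 < r := lt_of_le_of_lt (Nat.zero_le _) i0.2
  have hrR : (0 : ℝ) < r := by exact_mod_cast hr
  have hb0 : b ≠ 0 := by
    intro h
    exact hb i0 (by rw [h]; rfl)
  have hy0 : ∀ j, y j ≠ 0 := by
    intro j h
    have := h1 j
    rw [h] at this
    exact zero_ne_one this
  set t : ℕ → ℝ := fun j => vH (y j) with htdef
  have htpos : ∀ᶠ j in (U : Filter ℕ), 0 < t j := ht.eventually_gt_atTop 0
  have hN : ∀ j v, 0 ≤ Real.log (vn v (y j)) := by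
    intro j v
    refine Real.log_nonneg ?_
    have := le_vn v (y j) i0
    rwa [h1, nv_one] at this
  have hNt : ∀ j v, Real.log (vn v (y j)) ≤ t j := fun j v =>
    single_le_gsum (finS_vn (hy0 j)) (hN j) v
  -- exponents of the coordinates
  have hε₀0 : 0 ≤ ε₀ := by
    obtain ⟨j, hj1, hj2⟩ := ((hy i0).and htpos).exists
    have h2 : 0 ≤ ε₀ * t j := (out_nonneg S _).trans hj1.2
    exact nonneg_of_mul_nonneg_left h2 hj2
  have hE : ∀ i, ∃ e : Pl K → ℝ, (∀ v : FinitePlace K, v ∉ S → e (.inr v) = 0) ∧
      (∀ v, InP S v → Tendsto (fun j => Real.log (nv v (y j i)) / t j) U (𝓝 (e v))) ∧ |gsum e| ≤ ε₀ := by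
    intro i
    refine expsE U S t (fun j => y j i) ε₀ (hy i) ht (fun _ => 0) ?_
    intro v
    filter_upwards [hy i] with j hj'
    have hj := hj'.1
    rw [zero_add, abs_le]
    constructor
    · have h2 := le_nv_of_ne_zero hj (fun w => Real.log (vn w (y j))) (finS_vn (hy0 j))
        (fun w => Real.log_le_log (nv_pos w hj) (le_vn w (y j) i)) v
      have h3 := hN j v
      have h4 : gsum (fun w => Real.log (vn w (y j))) = t j := rfl
      rw [h4] at h2
      linarith
    · exact (Real.log_le_log (nv_pos v hj) (le_vn v (y j) i)).trans (hNt j v)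
  choose e he0 he heg using hE
  -- exponents of the sum
  obtain ⟨e', he0', he', heg'⟩ : ∃ e : Pl K → ℝ, (∀ v : FinitePlace K, v ∉ S → e (.inr v) = 0) ∧
      (∀ v, InP S v → Tendsto (fun j => Real.log (nv v (∑ i, b i * y j i)) / t j) U (𝓝 (e v))) ∧
      |gsum e| ≤ ε₀ := by
    set β : Pl K → ℝ := fun v => Real.log (vn v b) + SU1.kap r v with hβ
    have hβF : FinS β := (finS_vn hb0).add (SU1.finS_kap r)
    refine expsE U S t (fun j => ∑ i, b i * y j i) ε₀ hz ht (fun v => |β v| + |gsum β|) ?_
    intro v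
    filter_upwards [hz] with j hj'
    have hj := hj'.1
    have hup : ∀ w, Real.log (nv w (∑ i, b i * y j i)) ≤ β w + Real.log (vn w (y j)) :=
      fun w => SU1.nv_lin_le hr w b (y j) hb0 (hy0 j) hj
    have h2 := le_nv_of_ne_zero hj (fun w => β w + Real.log (vn w (y j)))
      (hβF.add (finS_vn (hy0 j))) hup v
    rw [gsum_add hβF (finS_vn (hy0 j))] at h2
    have h4 : gsum (fun w => Real.log (vn w (y j))) = t j := rfl
    have h4' : gsum (fun v => β v) = gsum β := rfl
    rw [h4, h4'] at h2
    have h5 := hup v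
    have h6 := hNt j v
    have h7 := hN j v
    have a1 := le_abs_self (β v)
    have a2 := neg_abs_le (β v)
    have a3 := le_abs_self (gsum β)
    have a4 := neg_abs_le (gsum β)
    have a5 := abs_nonneg (gsum β)
    rw [abs_le]
    constructor
    · linarith
    · linarith
  -- the sum of the defects
  set d : ℕ → ℝ := fun j => ∑ i, out S (y j i) with hd
  have hall : ∀ᶠ j in (U : Filter ℕ), ∀ i, y j i ≠ 0 := by
    rw [Filter.eventually_all]
    exact fun i => (hy i).mono fun j hj => hj.1
  have hdt : ∀ᶠ j in (U : Filter ℕ), d j ≤ r * ε₀ * t j := by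
    have h2 : ∀ᶠ j in (U : Filter ℕ), ∀ i, out S (y j i) ≤ ε₀ * t j := by
      rw [Filter.eventually_all]
      exact fun i => (hy i).mono fun j hj => hj.2
    filter_upwards [h2] with j hj
    have h3 := Finset.sum_le_sum fun (i : Fin r) (_ : i ∈ Finset.univ) => hj i
    rw [Finset.sum_const, Finset.card_univ, Fintype.card_fin, nsmul_eq_mul, ← mul_assoc] at h3
    exact h3
  -- the maximal coordinates
  choose m hm using fun v => SU1.max_index hr U y v
  have hsum1 : |1 - gsum (fun v => e (m v) v)| ≤ r * ε₀ := by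
    refine tend_inE S (fun j v => Real.log (vn v (y j))) t _ 1 _
      (Eventually.of_forall fun j => finS_vn (hy0 j)) htpos ?_ (fun v hv => he0 _ v hv) ?_ ?_
    · filter_upwards [hall, hdt] with j hj hdj
      exact (off_vn_le S (y j) hj i0).trans hdj
    · intro v hv
      refine (tendsto_congr' ?_).mpr (he (m v) v hv)
      filter_upwards [hm v] with j hj
      rw [SU1.vn_eq v (y j) (m v) hj]
    · refine (tendsto_congr' ?_).mpr tendsto_const_nhds
      filter_upwards [ht.eventually_ge_atTop 1] with j hj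
      have h4 : gsum (fun w => Real.log (vn w (y j))) = t j := rfl
      rw [h4]
      have : 0 < t j := by linarith
      exact div_self this.ne'
  -- the exponents
  obtain ⟨v₀⟩ : Nonempty (InfinitePlace K) := inferInstance
  set A : ℝ := gsum (fun v => e (m v) v) - gsum e' - ∑ i, gsum (e i) with hA
  have hA1 : 1 - (2 * r + 1) * ε₀ ≤ A := by
    have h2 : ∑ i, gsum (e i) ≤ r * ε₀ := by
      have h3 := Finset.sum_le_sum fun (i : Fin r) (_ : i ∈ Finset.univ) => (le_abs_self _).trans (heg i)
      rw [Finset.sum_const, Finset.card_univ, Fintype.card_fin, nsmul_eq_mul] at h3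
      exact h3
    have h3 := (abs_le.mp hsum1).2
    have h4 := (le_abs_self _).trans heg'
    rw [hA]
    linarith
  set c : Pl K → Fin r → ℝ := fun v i' =>
    (if i' = m v then e' v else e i' v) + (if v = .inl v₀ then A / (r : ℝ) else 0) with hc
  have hcS : ExpS S c := by
    intro v hv
    funext i'
    simp only [hc]
    rw [he0' v hv, he0 i' v hv]
    simp
  have hdeg : deg c = 0 := by
    have h2 : (fun v => ∑ i', c v i') = fun v => (∑ i', e i' v) +
        ((e' v + (-1) * e (m v) v) + (if v = .inl v₀ then A else 0)) := by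
      funext v
      have h3 : ∀ i', c v i' = (e i' v + if i' = m v then e' v - e (m v) v else 0) +
          (if v = .inl v₀ then A / (r : ℝ) else 0) := by
        intro i'
        simp only [hc]
        by_cases h : i' = m v
        · subst h; simp
        · simp [h]
      rw [Finset.sum_congr rfl fun i' _ => h3 i', Finset.sum_add_distrib, Finset.sum_add_distrib,
        Finset.sum_ite_eq' Finset.univ (m v), Finset.sum_const, Finset.card_univ,
        Fintype.card_fin]
      by_cases h : v = .inl v₀
      · simp only [h, if_true, Finset.mem_univ, nsmul_eq_mul]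
        field_simp
        ring
      · simp only [h, if_false, Finset.mem_univ, if_true, smul_zero]
        ring
    have f1 : ∀ i, FinS (e i) := fun i => SU1.finS_of_S S _ (he0 i)
    have f2 : FinS e' := SU1.finS_of_S S _ he0'
    have f3 : FinS (fun v => e (m v) v) := SU1.finS_of_S S _ (fun v hv => he0 _ v hv)
    have f4 : FinS (K := K) (fun v => if v = .inl v₀ then A else 0) :=
      SU1.finS_of_S S _ (fun v hv => by simp)
    have g4 : gsum (K := K) (fun v => if v = .inl v₀ then A else 0) = A := by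
      rw [SU1.gsum_eq_of_S S _ (fun v hv => by simp)]
      simp
    unfold deg
    rw [h2, gsum_add (FinS.sum _ fun i _ => f1 i) ((f2.add (f3.const_mul (-1))).add f4),
      gsum_sum _ (fun i _ => f1 i), gsum_add (f2.add (f3.const_mul (-1))) f4,
      gsum_add f2 (f3.const_mul (-1)), gsum_const_mul, g4, hA]
    have h5 : gsum (fun v => e' v) = gsum e' := rfl
    have h6 : ∀ i, gsum (fun v => e i v) = gsum (e i) := fun _ => rfl
    rw [h5, Finset.sum_congr rfl fun i _ => h6 i]
    ring
  -- the twisted height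
  set M : ℝ := Fintype.card (InfinitePlace K) + S.card with hM
  have hMpos : 0 < M := by
    have h2 : 0 < Fintype.card (InfinitePlace K) := Fintype.card_pos
    have h3 : (0 : ℝ) < Fintype.card (InfinitePlace K) := by exact_mod_cast h2
    positivity
  set ε : ℝ := 1 / (4 * r * M) with hε
  have hεpos : 0 < ε := by positivity
  have hloc : ∀ v : Pl K, InP S v → ∀ᶠ j in (U : Filter ℕ), ∀ i',
      Real.log (nv v (if i' = m v then ∑ l, b l * y j l else y j i') *
        Real.exp (-(t j * c v i'))) ≤ ε * t j - (if v = .inl v₀ then t j * A / r else 0) := by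
    intro v hvP
    rw [Filter.eventually_all]
    intro i'
    by_cases h : i' = m v
    · have h2 := (he' v hvP).eventually (Iio_mem_nhds (show e' v < e' v + ε by linarith))
      filter_upwards [h2, hz, ht.eventually_gt_atTop 0] with j hj hzj' htj
      have hzj := hzj'.1
      have h3 : Real.log (nv v (∑ l, b l * y j l)) < (e' v + ε) * t j := by
        have : Real.log (nv v (∑ i, b i * y j i)) / t j < e' v + ε := hj
        rwa [div_lt_iff₀ htj] at this
      simp only [h, if_true]
      rw [Real.log_mul (nv_pos v hzj).ne' (Real.exp_pos _).ne', Real.log_exp]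
      simp only [hc, if_true]
      by_cases hv : v = .inl v₀
      · simp only [hv, if_true] at h3 ⊢
        have : t j * (e' (.inl v₀) + A / (r : ℝ)) = t j * e' (.inl v₀) + t j * A / r := by ring
        rw [this]
        nlinarith [h3]
      · simp only [hv, if_false] at h3 ⊢
        nlinarith [h3]
    · have h2 := (he i' v hvP).eventually (Iio_mem_nhds (show e i' v < e i' v + ε by linarith))
      filter_upwards [h2, hy i', ht.eventually_gt_atTop 0] with j hj hyj' htj
      have hyj := hyj'.1
      have h3 : Real.log (nv v (y j i')) < (e i' v + ε) * t j := by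
        have : Real.log (nv v (y j i')) / t j < e i' v + ε := hj
        rwa [div_lt_iff₀ htj] at this
      simp only [h, if_false]
      rw [Real.log_mul (nv_pos v hyj).ne' (Real.exp_pos _).ne', Real.log_exp]
      simp only [hc, h, if_false]
      by_cases hv : v = .inl v₀
      · simp only [hv, if_true] at h3 ⊢
        have : t j * (e i' (.inl v₀) + A / (r : ℝ)) = t j * e i' (.inl v₀) + t j * A / r := by ring
        rw [this]
        nlinarith [h3]
      · simp only [hv, if_false] at h3 ⊢
        nlinarith [h3]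
  have hpos : ∀ᶠ j in (U : Filter ℕ), ∀ (v : Pl K) (i' : Fin r),
      0 < nv v (if i' = m v then ∑ l, b l * y j l else y j i') * Real.exp (-(t j * c v i')) := by
    filter_upwards [hz, hall] with j hzj' hyj v i'
    have hzj := hzj'.1
    refine mul_pos (nv_pos v ?_) (Real.exp_pos _)
    split_ifs
    · exact hzj
    · exact hyj i'
  have hlocI : ∀ᶠ j in (U : Filter ℕ), ∀ v : InfinitePlace K,
      Real.log (tn (SU1.Fm S b hb m) (sc (t j) c) (.inl v) (y j)) ≤
        ε * t j - (if v = v₀ then t j * A / r else 0) := by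
    have h2 : ∀ᶠ j in (U : Filter ℕ), ∀ v : InfinitePlace K, ∀ i',
      Real.log (nv (.inl v) (if i' = m (.inl v) then ∑ l, b l * y j l else y j i') *
        Real.exp (-(t j * c (.inl v) i'))) ≤
          ε * t j - (if (Sum.inl v : Pl K) = .inl v₀ then t j * A / r else 0) := by
      rw [Filter.eventually_all]
      exact fun v => hloc (.inl v) trivial
    filter_upwards [h2, hpos] with j hj hpj v
    unfold tn
    refine SU1.log_iSup_le hr _ ?_ _ ?_
    · intro i'
      simp only [SU1.Fm, SU1.Lm, SU1.upd_mulVec, sc]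
      exact hpj (.inl v) i'
    · intro i'
      simp only [SU1.Fm, SU1.Lm, SU1.upd_mulVec, sc]
      have := hj v i'
      simpa using this
  have hlocS : ∀ᶠ j in (U : Filter ℕ), ∀ v ∈ S,
      Real.log (tn (SU1.Fm S b hb m) (sc (t j) c) (.inr v) (y j)) ≤ ε * t j := by
    have h2 : ∀ᶠ j in (U : Filter ℕ), ∀ v ∈ S, ∀ i',
      Real.log (nv (.inr v) (if i' = m (.inr v) then ∑ l, b l * y j l else y j i') *
        Real.exp (-(t j * c (.inr v) i'))) ≤
          ε * t j - (if (Sum.inr v : Pl K) = .inl v₀ then t j * A / r else 0) := by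
      rw [Filter.eventually_all_finset]
      exact fun v hv => hloc (.inr v) hv
    filter_upwards [h2, hpos] with j hj hpj v hv
    unfold tn
    refine SU1.log_iSup_le hr _ ?_ _ ?_
    · intro i'
      simp only [SU1.Fm, SU1.Lm, hv, if_true, SU1.upd_mulVec, sc]
      exact hpj (.inr v) i'
    · intro i'
      simp only [SU1.Fm, SU1.Lm, hv, if_true, SU1.upd_mulVec, sc]
      have := hj v hv i'
      simpa using this
  have htnO : ∀ j, ∀ v : FinitePlace K, v ∉ S →
      tn (SU1.Fm S b hb m) (sc (t j) c) (.inr v) (y j) = vn (.inr v) (y j) := by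
    intro j v hv
    unfold tn vn
    congr 1
    funext i'
    simp only [SU1.Fm, SU1.Lm, hv, if_false, Matrix.one_mulVec, sc]
    rw [hcS v hv]
    simp
  have hFtn : ∀ j, FinS (fun v => Real.log (tn (SU1.Fm S b hb m) (sc (t j) c) v (y j))) := by
    intro j
    have h2 : FinS (fun v => Real.log (vn v (y j))) := finS_vn (hy0 j)
    refine Set.Finite.subset (h2.union S.finite_toSet) fun v hv => ?_
    by_cases hvS : v ∈ S
    · exact Or.inr hvS
    · left
      rw [Function.mem_support] at hv ⊢
      intro h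
      apply hv
      show Real.log (tn (SU1.Fm S b hb m) (sc (t j) c) (.inr v) (y j)) = 0
      rw [htnO j v hvS]
      exact h
  refine subspace_stub (SU1.Fm S b hb m) c hcS hdeg U t ht (1 / (4 * r)) (by positivity) y ?_
  filter_upwards [hlocI, hlocS, hall, hdt, htpos] with j hI hS hO hsm htj
  refine ⟨hy0 j, ?_⟩
  unfold tH
  rw [gsum_split S (hFtn j)]
  have s0 : gsum (offS S fun v => Real.log (tn (SU1.Fm S b hb m) (sc (t j) c) v (y j))) ≤ d j := by
    have h2 : (offS S fun v => Real.log (tn (SU1.Fm S b hb m) (sc (t j) c) v (y j))) =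
        offS S fun v => Real.log (vn v (y j)) := by
      funext v
      rcases v with v | v
      · rfl
      · by_cases hv : v ∈ S
        · simp [offS, hv]
        · simp only [offS, hv, if_false]
          rw [htnO j v hv]
    rw [h2]
    exact (le_abs_self _).trans (off_vn_le S (y j) hO i0)
  rw [SU1.gsum_eq_of_S S (inS S _) (fun v hv => by simp [inS, hv])]
  have s1 : ∑ v : InfinitePlace K,
      inS S (fun v => Real.log (tn (SU1.Fm S b hb m) (sc (t j) c) v (y j))) (.inl v) ≤
      ∑ v : InfinitePlace K, (ε * t j - (if v = v₀ then t j * A / r else 0)) :=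
    Finset.sum_le_sum fun v _ => hI v
  have s2 : ∑ v ∈ S, inS S (fun v => Real.log (tn (SU1.Fm S b hb m) (sc (t j) c) v (y j))) (.inr v) ≤
      ∑ v ∈ S, ε * t j := Finset.sum_le_sum fun v hv => by
    simp only [inS, hv, if_true]
    exact hS v hv
  rw [Finset.sum_sub_distrib, Finset.sum_const, Finset.sum_ite_eq' Finset.univ v₀,
    Finset.card_univ, nsmul_eq_mul] at s1
  rw [Finset.sum_const, nsmul_eq_mul] at s2
  simp only [Finset.mem_univ, if_true] at s1
  have s3 : ε * M = 1 / (4 * r) := by
    rw [hε]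
    field_simp
  have s4 : (Fintype.card (InfinitePlace K) : ℝ) * (ε * t j) + S.card * (ε * t j) =
      (ε * M) * t j := by
    rw [hM]
    ring
  rw [s3] at s4
  have s5 : (1 / (2 * r) + r * ε₀) * t j ≤ t j * A / (r : ℝ) := by
    rw [le_div_iff₀ hrR]
    have h2 : (1 / (2 * (r : ℝ)) + r * ε₀) * t j * r = (1 / 2 + r * r * ε₀) * t j := by
      field_simp
    rw [h2, mul_comm (t j)]
    refine mul_le_mul_of_nonneg_right (le_trans ?_ hA1) htj.le
    have h3 : (1 : ℝ) ≤ r := by exact_mod_cast hr
    nlinarith [mul_nonneg (mul_nonneg hε₀0 hrR.le) (sub_nonneg.mpr h3), mul_nonneg hε₀0 (sub_nonneg.mpr h3)]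
  have s6 : (1 / (2 * (r : ℝ)) + r * ε₀) * t j = 1 / (4 * r) * t j + 1 / (4 * r) * t j + r * ε₀ * t j := by
    field_simp
    ring
  linarith

end Pool.Agent.Helper77.AU
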