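import Pool.Agent.Helper26.DMC.SU1

/-!
# Almost units

`t : ℕ → ℝ` is a scale which tends to infinity along the ultrafilter `U`. A sequence `a j` in `K` is a sequence of almost units
if `∑_{v ∉ S} |log |a j|_v| = o(t j)`, and it is slow if its height is `o(t j)`. Almost units such that no ratio of two of them is
slow are linearly independent over `K` (from the subspace theorem).
-/

set_option autoImplicit false

namespace Pool.Agent.Helper77.AU

open NumberField
open Pool.Agent.V2
open Pool.Agent.Helper64.Vojta (Pl nv)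
open Pool.Agent.Helper26.DMC
open Filter Topology
open Pool.Agent.Helper64.Vojta (nv_nonneg nv_mul nv_one nv_zero nv_pos nv_inv)

variable {K : Type*} [Field K] [NumberField K]

open Classical in
/-- the part of `f` at the places outside `S` -/
noncomputable def offS (S : Finset (FinitePlace K)) (f : Pl K → ℝ) : Pl K → ℝ
  | .inl _ => 0
  | .inr v => if v ∈ S then 0 else f (.inr v)

open Classical in
/-- the part of `f` at the places of `S` -/
noncomputable def inS (S : Finset (FinitePlace K)) (f : Pl K → ℝ) : Pl K → ℝ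
  | .inl v => f (.inl v)
  | .inr v => if v ∈ S then f (.inr v) else 0

/-- the sum of `|log |a|_v|` over the places outside `S` -/
noncomputable def out (S : Finset (FinitePlace K)) (a : K) : ℝ := gsum (offS S fun v => |Real.log (nv v a)|)

theorem finS_offS (S : Finset (FinitePlace K)) {f : Pl K → ℝ} (hf : FinS f) : FinS (offS S f) := by
  refine Set.Finite.subset hf fun v hv => ?_
  rw [Function.mem_support] at hv ⊢
  intro h
  apply hv
  simp only [offS]
  split_ifs
  · rfl
  · exact h

theorem finS_inS (S : Finset (FinitePlace K)) (f : Pl K → ℝ) : FinS (inS S f) :=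
  SU1.finS_of_S S _ fun v hv => by simp [inS, hv]

theorem inS_add_offS (S : Finset (FinitePlace K)) (f : Pl K → ℝ) (v : Pl K) :
    inS S f v + offS S f v = f v := by
  rcases v with v | v
  · simp [inS, offS]
  · by_cases h : v ∈ S <;> simp [inS, offS, h]

theorem gsum_split (S : Finset (FinitePlace K)) {f : Pl K → ℝ} (hf : FinS f) :
    gsum f = gsum (inS S f) + gsum (offS S f) := by
  rw [← gsum_add (finS_inS S f) (finS_offS S hf)]
  congr 1
  funext v
  exact (inS_add_offS S f v).symm

theorem finS_abs {f : Pl K → ℝ} (hf : FinS f) : FinS (fun v => |f v|) := by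
  refine Set.Finite.subset hf fun v hv => ?_
  rw [Function.mem_support] at hv ⊢
  intro h
  apply hv
  show |f (.inr v)| = 0
  rw [h, abs_zero]

theorem offS_nonneg (S : Finset (FinitePlace K)) {f : Pl K → ℝ} (hf : ∀ v, 0 ≤ f v) (v : Pl K) :
    0 ≤ offS S f v := by
  rcases v with v | v
  · exact le_rfl
  · simp only [offS]
    split_ifs
    · exact le_rfl
    · exact hf _

theorem offS_mono (S : Finset (FinitePlace K)) {f g : Pl K → ℝ} (h : ∀ v, f v ≤ g v) (v : Pl K) :
    offS S f v ≤ offS S g v := by
  rcases v with v | v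
  · exact le_rfl
  · simp only [offS]
    split_ifs
    · exact le_rfl
    · exact h _

theorem offS_add (S : Finset (FinitePlace K)) (f g : Pl K → ℝ) :
    offS S (fun v => f v + g v) = fun v => offS S f v + offS S g v := by
  funext v
  rcases v with v | v
  · simp [offS]
  · by_cases h : v ∈ S <;> simp [offS, h]

theorem offS_sum (S : Finset (FinitePlace K)) {α : Type*} (s : Finset α) (f : α → Pl K → ℝ) :
    offS S (fun v => ∑ a ∈ s, f a v) = fun v => ∑ a ∈ s, offS S (f a) v := by
  funext v
  rcases v with v | v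
  · simp [offS]
  · by_cases h : v ∈ S <;> simp [offS, h]

theorem abs_gsum_le {f g : Pl K → ℝ} (hf : FinS f) (hg : FinS g) (h : ∀ v, |f v| ≤ g v) :
    |gsum f| ≤ gsum g := by
  rw [abs_le]
  constructor
  · rw [← gsum_neg]
    exact gsum_mono hg.neg hf fun v => neg_le_of_abs_le (h v)
  · exact gsum_mono hf hg fun v => (abs_le.1 (h v)).2

theorem out_nonneg (S : Finset (FinitePlace K)) (a : K) : 0 ≤ out S a :=
  gsum_nonneg (offS_nonneg S fun v => abs_nonneg _)

theorem finS_out (S : Finset (FinitePlace K)) {a : K} (ha : a ≠ 0) :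
    FinS (offS S fun v => |Real.log (nv v a)|) :=
  finS_offS S (finS_abs (finS_nv ha))

theorem out_mul_le (S : Finset (FinitePlace K)) {a b : K} (ha : a ≠ 0) (hb : b ≠ 0) :
    out S (a * b) ≤ out S a + out S b := by
  unfold out
  rw [← gsum_add (finS_out S ha) (finS_out S hb)]
  refine gsum_mono (finS_out S (mul_ne_zero ha hb)) ((finS_out S ha).add (finS_out S hb)) fun v => ?_
  have h1 : offS S (fun v => |Real.log (nv v a)|) v + offS S (fun v => |Real.log (nv v b)|) v =
      offS S (fun v => |Real.log (nv v a)| + |Real.log (nv v b)|) v :=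
    (congrFun (offS_add S _ _) v).symm
  rw [h1]
  refine offS_mono S (fun v => ?_) v
  rw [nv_mul, Real.log_mul (nv_pos v ha).ne' (nv_pos v hb).ne']
  exact abs_add_le _ _

theorem out_inv (S : Finset (FinitePlace K)) (a : K) : out S a⁻¹ = out S a := by
  unfold out
  congr 2
  funext v
  rw [nv_inv, Real.log_inv, abs_neg]

theorem le_out (S : Finset (FinitePlace K)) {a : K} (ha : a ≠ 0) {v : FinitePlace K} (hv : v ∉ S) :
    |Real.log (nv (.inr v) a)| ≤ out S a := by
  have h := single_le_gsum (finS_out S ha) (offS_nonneg S fun v => abs_nonneg _) (.inr v)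
  simp only [offS, hv, if_false] at h
  exact h

/-- the places outside `S` matter little if the height is small -/
theorem out_le (S : Finset (FinitePlace K)) {a : K} (ha : a ≠ 0) :
    out S a ≤ 2 * Height.logHeight₁ a := by
  have key : ∀ b : K, b ≠ 0 → gsum (fun v => max 0 (Real.log (nv v b))) ≤ Height.logHeight₁ b := by
    intro b hb
    have hne0 : (![b, 1] : Fin 2 → K) ≠ 0 := by
      intro h
      have := congrFun h 1
      simp at this
    rw [Height.logHeight₁_eq_logHeight, ← vH_eq hne0]
    refine gsum_mono ?_ (finS_vn hne0) fun v => ?_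
    · refine Set.Finite.subset (finS_nv hb) fun v hv => ?_
      rw [Function.mem_support] at hv ⊢
      intro h
      apply hv
      show max 0 (Real.log (nv (.inr v) b)) = 0
      have h' : Real.log (nv (.inr v) b) = 0 := h
      rw [h', max_self]
    · refine max_le ?_ ?_
      · refine Real.log_nonneg ?_
        have := le_vn v ![b, 1] 1
        simpa [nv_one] using this
      · refine Real.log_le_log (nv_pos v hb) ?_
        exact le_vn v ![b, 1] 0
  have h1 := key a ha
  have h2 := key a⁻¹ (inv_ne_zero ha)
  rw [Height.logHeight₁_inv] at h2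
  have hF : ∀ b : K, b ≠ 0 → FinS (fun v => max 0 (Real.log (nv v b))) := by
    intro b hb
    refine Set.Finite.subset (finS_nv hb) fun v hv => ?_
    rw [Function.mem_support] at hv ⊢
    intro h
    apply hv
    show max 0 (Real.log (nv (.inr v) b)) = 0
    have h' : Real.log (nv (.inr v) b) = 0 := h
    rw [h', max_self]
  have h3 : out S a ≤ gsum (fun v => max 0 (Real.log (nv v a)) + max 0 (Real.log (nv v a⁻¹))) := by
    unfold out
    refine gsum_mono (finS_out S ha) ((hF a ha).add (hF a⁻¹ (inv_ne_zero ha))) fun v => ?_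
    have h4 : |Real.log (nv v a)| ≤ max 0 (Real.log (nv v a)) + max 0 (Real.log (nv v a⁻¹)) := by
      rw [nv_inv, Real.log_inv]
      rcases le_total 0 (Real.log (nv v a)) with h | h
      · rw [abs_of_nonneg h, max_eq_right h, max_eq_left (by linarith), add_zero]
      · rw [abs_of_nonpos h, max_eq_left h, max_eq_right (by linarith), zero_add]
    refine le_trans ?_ h4
    rcases v with v | v
    · exact abs_nonneg _
    · simp only [offS]
      split_ifs
      · exact abs_nonneg _
      · exact le_rfl
  rw [gsum_add (hF a ha) (hF a⁻¹ (inv_ne_zero ha))] at h3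
  linarith

/-- almost units -/
def AU (U : Ultrafilter ℕ) (S : Finset (FinitePlace K)) (t : ℕ → ℝ) (a : ℕ → K) : Prop :=
  (∀ᶠ j in (U : Filter ℕ), a j ≠ 0) ∧ Tendsto (fun j => out S (a j) / t j) U (𝓝 0)

/-- slow sequences -/
def Slow (U : Ultrafilter ℕ) (t : ℕ → ℝ) (a : ℕ → K) : Prop :=
  Tendsto (fun j => Height.logHeight₁ (a j) / t j) U (𝓝 0)

theorem tendsto_zero_of_le {U : Ultrafilter ℕ} {f g : ℕ → ℝ} (h0 : ∀ᶠ j in (U : Filter ℕ), 0 ≤ f j)
    (h : ∀ᶠ j in (U : Filter ℕ), f j ≤ g j) (hg : Tendsto g U (𝓝 0)) : Tendsto f U (𝓝 0) :=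
  tendsto_of_tendsto_of_tendsto_of_le_of_le' tendsto_const_nhds hg h0 h

/-- limits of sums over all places -/
theorem tend_in {U : Ultrafilter ℕ} (S : Finset (FinitePlace K)) (f : ℕ → Pl K → ℝ) (t g : ℕ → ℝ)
    (e : Pl K → ℝ) (hF : ∀ᶠ j in (U : Filter ℕ), FinS (f j)) (ht : ∀ᶠ j in (U : Filter ℕ), 0 < t j)
    (hoff : ∀ᶠ j in (U : Filter ℕ), |gsum (offS S (f j))| ≤ g j)
    (hg : Tendsto (fun j => g j / t j) U (𝓝 0)) (he : ∀ v : FinitePlace K, v ∉ S → e (.inr v) = 0)
    (h : ∀ v, Tendsto (fun j => f j v / t j) U (𝓝 (e v))) :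
    Tendsto (fun j => gsum (f j) / t j) U (𝓝 (gsum e)) := by
  have h1 : Tendsto (fun j => gsum (inS S (f j)) / t j) U (𝓝 (gsum e)) := by
    rw [SU1.gsum_eq_of_S S e he]
    have h2 : (fun j => gsum (inS S (f j)) / t j) =
        fun j => ∑ v : InfinitePlace K, f j (.inl v) / t j + ∑ v ∈ S, f j (.inr v) / t j := by
      funext j
      rw [SU1.gsum_eq_of_S S _ (fun v hv => by simp [inS, hv]), add_div, Finset.sum_div, Finset.sum_div]
      congr 1
      exact Finset.sum_congr rfl fun v hv => by simp [inS, hv]
    rw [h2]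
    exact (tendsto_finsetSum _ fun v _ => h _).add (tendsto_finsetSum _ fun v _ => h _)
  have h3 : Tendsto (fun j => gsum (offS S (f j)) / t j) U (𝓝 0) := by
    rw [tendsto_zero_iff_abs_tendsto_zero]
    refine tendsto_zero_of_le (Eventually.of_forall fun j => abs_nonneg _) ?_ hg
    filter_upwards [hoff, ht] with j hj htj
    simp only [Function.comp_apply]
    rw [abs_div, abs_of_pos htj]
    exact div_le_div_of_nonneg_right hj htj.le
  have h4 := h1.add h3
  rw [add_zero] at h4
  refine (tendsto_congr' ?_).mp h4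
  filter_upwards [hF] with j hj
  rw [gsum_split S hj, add_div]

theorem exps (U : Ultrafilter ℕ) (S : Finset (FinitePlace K)) (t : ℕ → ℝ) (a : ℕ → K)
    (ha : AU U S t a) (ht : Tendsto t U atTop) (C : Pl K → ℝ)
    (hb : ∀ v, ∀ᶠ j in (U : Filter ℕ), |Real.log (nv v (a j))| ≤ C v + t j) :
    ∃ e : Pl K → ℝ, (∀ v : FinitePlace K, v ∉ S → e (.inr v) = 0) ∧
      (∀ v, Tendsto (fun j => Real.log (nv v (a j)) / t j) U (𝓝 (e v))) ∧ gsum e = 0 := by
  have h1 : ∀ v, ∃ e, Tendsto (fun j => Real.log (nv v (a j)) / t j) U (𝓝 e) := by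
    intro v
    refine SU1.lim_bdd U _ (|C v| + 1) ?_
    filter_upwards [hb v, ht.eventually_ge_atTop 1] with j hj htj
    have h0 : 0 < t j := by linarith
    rw [abs_div, abs_of_pos h0, div_le_iff₀ h0]
    have : |C v| ≤ |C v| * t j := le_mul_of_one_le_right (abs_nonneg _) htj
    have := le_abs_self (C v)
    linarith
  choose e he using h1
  have htpos : ∀ᶠ j in (U : Filter ℕ), 0 < t j := ht.eventually_gt_atTop 0
  have h2 : ∀ v : FinitePlace K, v ∉ S → e (.inr v) = 0 := by
    intro v hv
    have h3 : Tendsto (fun j => Real.log (nv (.inr v) (a j)) / t j) U (𝓝 0) := by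
      rw [tendsto_zero_iff_abs_tendsto_zero]
      refine tendsto_zero_of_le (Eventually.of_forall fun j => abs_nonneg _) ?_ ha.2
      filter_upwards [ha.1, htpos] with j hj htj
      simp only [Function.comp_apply]
      rw [abs_div, abs_of_pos htj]
      exact div_le_div_of_nonneg_right (le_out S hj hv) htj.le
    exact tendsto_nhds_unique (he (.inr v)) h3
  refine ⟨e, h2, he, ?_⟩
  have h5 := tend_in S (fun j v => Real.log (nv v (a j))) t (fun j => out S (a j)) e
    (by filter_upwards [ha.1] with j hj using finS_nv hj) htpos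
    (by
      filter_upwards [ha.1] with j hj
      refine abs_gsum_le (finS_offS S (finS_nv hj)) (finS_out S hj) fun v => ?_
      rcases v with v | v
      · simp [offS]
      · by_cases h : v ∈ S <;> simp [offS, h]) ha.2 h2 he
  have h6 : (fun j => gsum (fun v => Real.log (nv v (a j))) / t j) =ᶠ[(U : Filter ℕ)] fun _ => 0 := by
    filter_upwards [ha.1] with j hj
    rw [gsum_nv hj, zero_div]
  exact tendsto_nhds_unique ((tendsto_congr' h6).mp h5) tendsto_const_nhds

/-- the maximum of the absolute values at the places outside `S` -/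
theorem off_vn_le (S : Finset (FinitePlace K)) {r : ℕ} (y : Fin r → K) (hy : ∀ i, y i ≠ 0) (i0 : Fin r) :
    |gsum (offS S fun v => Real.log (vn v y))| ≤ ∑ i, out S (y i) := by
  have hy0 : y ≠ 0 := fun h => hy i0 (by rw [h]; rfl)
  have h1 : ∑ i, out S (y i) = gsum (fun v => ∑ i, offS S (fun v => |Real.log (nv v (y i))|) v) := by
    unfold out
    rw [gsum_sum _ fun i _ => finS_out S (hy i)]
  rw [h1]
  refine abs_gsum_le (finS_offS S (finS_vn hy0)) (FinS.sum _ fun i _ => finS_out S (hy i)) fun v => ?_
  rcases v with v | v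
  · simp [offS]
  · by_cases h : v ∈ S
    · simp [offS, h]
    · simp only [offS, h, if_false]
      have : Nonempty (Fin r) := ⟨i0⟩
      obtain ⟨m, hm⟩ := Finite.exists_max fun i => nv (.inr v) (y i)
      rw [SU1.vn_eq (.inr v) y m hm]
      exact Finset.single_le_sum (f := fun i => |Real.log (nv (.inr v) (y i))|) (fun i _ => abs_nonneg _)
        (Finset.mem_univ m)

theorem core1 (U : Ultrafilter ℕ) (S : Finset (FinitePlace K)) {r : ℕ} (y : ℕ → Fin r → K)
    (i0 : Fin r) (h1 : ∀ j, y j i0 = 1) (hy : ∀ i, AU U S (fun j => vH (y j)) (fun j => y j i))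
    (b : Fin r → K) (hb : ∀ i, b i ≠ 0) (hz : AU U S (fun j => vH (y j)) (fun j => ∑ i, b i * y j i))
    (ht : Tendsto (fun j => vH (y j)) U atTop) :
    ∃ W : Submodule K (Fin r → K), W ≠ ⊤ ∧ ∀ᶠ j in (U : Filter ℕ), y j ∈ W := by
  classical
  have hr : 0 < r := lt_of_le_of_lt (Nat.zero_le _) i0.2
  have hrR : (0 : ℝ) < r := by exact_mod_cast hr
  have hb0 : b ≠ 0 := by
    intro h
    exact hb i0 (by rw [h]; rfl)
  have hy0 : ∀ j, y j ≠ 0 := by
    intro j h
    have := h1 j
    rw [h] at this
    exact zero_ne_one this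
  set t : ℕ → ℝ := fun j => vH (y j) with htdef
  have htpos : ∀ᶠ j in (U : Filter ℕ), 0 < t j := ht.eventually_gt_atTop 0
  have hN : ∀ j v, 0 ≤ Real.log (vn v (y j)) := by
    intro j v
    refine Real.log_nonneg ?_
    have := le_vn v (y j) i0
    rwa [h1, nv_one] at this
  have hNt : ∀ j v, Real.log (vn v (y j)) ≤ t j := fun j v =>
    single_le_gsum (finS_vn (hy0 j)) (hN j) v
  -- exponents of the coordinates
  have hE : ∀ i, ∃ e : Pl K → ℝ, (∀ v : FinitePlace K, v ∉ S → e (.inr v) = 0) ∧
      (∀ v, Tendsto (fun j => Real.log (nv v (y j i)) / t j) U (𝓝 (e v))) ∧ gsum e = 0 := by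
    intro i
    refine exps U S t (fun j => y j i) (hy i) ht (fun _ => 0) ?_
    intro v
    filter_upwards [(hy i).1] with j hj
    rw [zero_add, abs_le]
    constructor
    · have h2 := le_nv_of_ne_zero hj (fun w => Real.log (vn w (y j))) (finS_vn (hy0 j))
        (fun w => Real.log_le_log (nv_pos w hj) (le_vn w (y j) i)) v
      have h3 := hN j v
      have h4 : gsum (fun w => Real.log (vn w (y j))) = t j := rfl
      rw [h4] at h2
      linarith
    · exact (Real.log_le_log (nv_pos v hj) (le_vn v (y j) i)).trans (hNt j v)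
  choose e he0 he heg using hE
  -- exponents of the sum
  obtain ⟨e', he0', he', heg'⟩ : ∃ e : Pl K → ℝ, (∀ v : FinitePlace K, v ∉ S → e (.inr v) = 0) ∧
      (∀ v, Tendsto (fun j => Real.log (nv v (∑ i, b i * y j i)) / t j) U (𝓝 (e v))) ∧
      gsum e = 0 := by
    set β : Pl K → ℝ := fun v => Real.log (vn v b) + SU1.kap r v with hβ
    have hβF : FinS β := (finS_vn hb0).add (SU1.finS_kap r)
    refine exps U S t (fun j => ∑ i, b i * y j i) hz ht (fun v => |β v| + |gsum β|) ?_
    intro v
    filter_upwards [hz.1] with j hj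
    have hup : ∀ w, Real.log (nv w (∑ i, b i * y j i)) ≤ β w + Real.log (vn w (y j)) :=
      fun w => SU1.nv_lin_le hr w b (y j) hb0 (hy0 j) hj
    have h2 := le_nv_of_ne_zero hj (fun w => β w + Real.log (vn w (y j)))
      (hβF.add (finS_vn (hy0 j))) hup v
    rw [gsum_add hβF (finS_vn (hy0 j))] at h2
    have h4 : gsum (fun w => Real.log (vn w (y j))) = t j := rfl
    have h4' : gsum (fun v => β v) = gsum β := rfl
    rw [h4, h4'] at h2
    have h5 := hup v
    have h6 := hNt j v
    have h7 := hN j v
    have a1 := le_abs_self (β v)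
    have a2 := neg_abs_le (β v)
    have a3 := le_abs_self (gsum β)
    have a4 := neg_abs_le (gsum β)
    have a5 := abs_nonneg (gsum β)
    rw [abs_le]
    constructor
    · linarith
    · linarith
  -- the sum of the defects
  set d : ℕ → ℝ := fun j => ∑ i, out S (y j i) with hd
  have hdt : Tendsto (fun j => d j / t j) U (𝓝 0) := by
    have h2 : Tendsto (fun j => ∑ i, out S (y j i) / t j) U (𝓝 (∑ _i : Fin r, (0 : ℝ))) :=
      tendsto_finsetSum _ fun i _ => (hy i).2
    rw [Finset.sum_const_zero] at h2
    refine (tendsto_congr fun j => ?_).mp h2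
    rw [hd, Finset.sum_div]
  have hall : ∀ᶠ j in (U : Filter ℕ), ∀ i, y j i ≠ 0 := by
    rw [Filter.eventually_all]
    exact fun i => (hy i).1
  -- the maximal coordinates
  choose m hm using fun v => SU1.max_index hr U y v
  have hsum1 : gsum (fun v => e (m v) v) = 1 := by
    have h2 : Tendsto (fun j => gsum (fun v => Real.log (vn v (y j))) / t j) U
        (𝓝 (gsum fun v => e (m v) v)) := by
      refine tend_in S (fun j v => Real.log (vn v (y j))) t d _
        (Eventually.of_forall fun j => finS_vn (hy0 j)) htpos ?_ hdt (fun v hv => he0 _ v hv) ?_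
      · filter_upwards [hall] with j hj
        exact off_vn_le S (y j) hj i0
      · intro v
        refine (tendsto_congr' ?_).mpr (he (m v) v)
        filter_upwards [hm v] with j hj
        rw [SU1.vn_eq v (y j) (m v) hj]
    have h3 : (fun j => gsum (fun v => Real.log (vn v (y j))) / t j) =ᶠ[(U : Filter ℕ)]
        fun _ => 1 := by
      filter_upwards [ht.eventually_ge_atTop 1] with j hj
      have h4 : gsum (fun w => Real.log (vn w (y j))) = t j := rfl
      rw [h4]
      have : 0 < t j := by linarith
      exact div_self this.ne'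
    exact tendsto_nhds_unique ((tendsto_congr' h3).mp h2) tendsto_const_nhds |>.symm ▸ rfl
  -- the exponents
  obtain ⟨v₀⟩ : Nonempty (InfinitePlace K) := inferInstance
  set c : Pl K → Fin r → ℝ := fun v i' =>
    (if i' = m v then e' v else e i' v) + (if v = .inl v₀ then 1 / (r : ℝ) else 0) with hc
  have hcS : ExpS S c := by
    intro v hv
    funext i'
    simp only [hc]
    rw [he0' v hv, he0 i' v hv]
    simp
  have hdeg : deg c = 0 := by
    have h2 : (fun v => ∑ i', c v i') = fun v => (∑ i', e i' v) +
        ((e' v + (-1) * e (m v) v) + (if v = .inl v₀ then 1 else 0)) := by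
      funext v
      have h3 : ∀ i', c v i' = (e i' v + if i' = m v then e' v - e (m v) v else 0) +
          (if v = .inl v₀ then 1 / (r : ℝ) else 0) := by
        intro i'
        simp only [hc]
        by_cases h : i' = m v
        · subst h; simp
        · simp [h]
      rw [Finset.sum_congr rfl fun i' _ => h3 i', Finset.sum_add_distrib, Finset.sum_add_distrib,
        Finset.sum_ite_eq' Finset.univ (m v), Finset.sum_const, Finset.card_univ,
        Fintype.card_fin]
      by_cases h : v = .inl v₀
      · simp only [h, if_true, Finset.mem_univ, nsmul_eq_mul]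
        field_simp
        ring
      · simp only [h, if_false, Finset.mem_univ, if_true, smul_zero]
        ring
    have f1 : ∀ i, FinS (e i) := fun i => SU1.finS_of_S S _ (he0 i)
    have f2 : FinS e' := SU1.finS_of_S S _ he0'
    have f3 : FinS (fun v => e (m v) v) := SU1.finS_of_S S _ (fun v hv => he0 _ v hv)
    have f4 : FinS (K := K) (fun v => if v = .inl v₀ then 1 else 0) :=
      SU1.finS_of_S S _ (fun v hv => by simp)
    have g4 : gsum (K := K) (fun v => if v = .inl v₀ then (1 : ℝ) else 0) = 1 := by
      rw [SU1.gsum_eq_of_S S _ (fun v hv => by simp)]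
      simp
    unfold deg
    rw [h2, gsum_add (FinS.sum _ fun i _ => f1 i) ((f2.add (f3.const_mul (-1))).add f4),
      gsum_sum _ (fun i _ => f1 i), gsum_add (f2.add (f3.const_mul (-1))) f4,
      gsum_add f2 (f3.const_mul (-1)), gsum_const_mul, hsum1, g4]
    have : ∀ i, gsum (fun v => e i v) = 0 := heg
    rw [Finset.sum_congr rfl fun i _ => this i]
    have h5 : gsum (fun v => e' v) = 0 := heg'
    rw [h5]
    simp
  -- the twisted height
  set M : ℝ := Fintype.card (InfinitePlace K) + S.card with hM
  have hMpos : 0 < M := by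
    have h2 : 0 < Fintype.card (InfinitePlace K) := Fintype.card_pos
    have h3 : (0 : ℝ) < Fintype.card (InfinitePlace K) := by exact_mod_cast h2
    positivity
  set ε : ℝ := 1 / (2 * r * M) with hε
  have hεpos : 0 < ε := by positivity
  have hloc : ∀ v : Pl K, ∀ᶠ j in (U : Filter ℕ), ∀ i',
      Real.log (nv v (if i' = m v then ∑ l, b l * y j l else y j i') *
        Real.exp (-(t j * c v i'))) ≤ ε * t j - (if v = .inl v₀ then t j / r else 0) := by
    intro v
    rw [Filter.eventually_all]
    intro i'
    by_cases h : i' = m v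
    · have h2 := (he' v).eventually (Iio_mem_nhds (show e' v < e' v + ε by linarith))
      filter_upwards [h2, hz.1, ht.eventually_gt_atTop 0] with j hj hzj htj
      have h3 : Real.log (nv v (∑ l, b l * y j l)) < (e' v + ε) * t j := by
        have : Real.log (nv v (∑ i, b i * y j i)) / t j < e' v + ε := hj
        rwa [div_lt_iff₀ htj] at this
      simp only [h, if_true]
      rw [Real.log_mul (nv_pos v hzj).ne' (Real.exp_pos _).ne', Real.log_exp]
      simp only [hc, if_true]
      by_cases hv : v = .inl v₀
      · simp only [hv, if_true] at h3 ⊢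
        have : t j * (e' (.inl v₀) + 1 / (r : ℝ)) = t j * e' (.inl v₀) + t j / r := by ring
        rw [this]
        nlinarith [h3]
      · simp only [hv, if_false] at h3 ⊢
        nlinarith [h3]
    · have h2 := (he i' v).eventually (Iio_mem_nhds (show e i' v < e i' v + ε by linarith))
      filter_upwards [h2, (hy i').1, ht.eventually_gt_atTop 0] with j hj hyj htj
      have h3 : Real.log (nv v (y j i')) < (e i' v + ε) * t j := by
        have : Real.log (nv v (y j i')) / t j < e i' v + ε := hj
        rwa [div_lt_iff₀ htj] at this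
      simp only [h, if_false]
      rw [Real.log_mul (nv_pos v hyj).ne' (Real.exp_pos _).ne', Real.log_exp]
      simp only [hc, h, if_false]
      by_cases hv : v = .inl v₀
      · simp only [hv, if_true] at h3 ⊢
        have : t j * (e i' (.inl v₀) + 1 / (r : ℝ)) = t j * e i' (.inl v₀) + t j / r := by ring
        rw [this]
        nlinarith [h3]
      · simp only [hv, if_false] at h3 ⊢
        nlinarith [h3]
  have hpos : ∀ᶠ j in (U : Filter ℕ), ∀ (v : Pl K) (i' : Fin r),
      0 < nv v (if i' = m v then ∑ l, b l * y j l else y j i') * Real.exp (-(t j * c v i')) := by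
    filter_upwards [hz.1, hall] with j hzj hyj v i'
    refine mul_pos (nv_pos v ?_) (Real.exp_pos _)
    split_ifs
    · exact hzj
    · exact hyj i'
  have hlocI : ∀ᶠ j in (U : Filter ℕ), ∀ v : InfinitePlace K,
      Real.log (tn (SU1.Fm S b hb m) (sc (t j) c) (.inl v) (y j)) ≤
        ε * t j - (if v = v₀ then t j / r else 0) := by
    have h2 : ∀ᶠ j in (U : Filter ℕ), ∀ v : InfinitePlace K, ∀ i',
      Real.log (nv (.inl v) (if i' = m (.inl v) then ∑ l, b l * y j l else y j i') *
        Real.exp (-(t j * c (.inl v) i'))) ≤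
          ε * t j - (if (Sum.inl v : Pl K) = .inl v₀ then t j / r else 0) := by
      rw [Filter.eventually_all]
      exact fun v => hloc (.inl v)
    filter_upwards [h2, hpos] with j hj hpj v
    unfold tn
    refine SU1.log_iSup_le hr _ ?_ _ ?_
    · intro i'
      simp only [SU1.Fm, SU1.Lm, SU1.upd_mulVec, sc]
      exact hpj (.inl v) i'
    · intro i'
      simp only [SU1.Fm, SU1.Lm, SU1.upd_mulVec, sc]
      have := hj v i'
      simpa using this
  have hlocS : ∀ᶠ j in (U : Filter ℕ), ∀ v ∈ S,
      Real.log (tn (SU1.Fm S b hb m) (sc (t j) c) (.inr v) (y j)) ≤ ε * t j := by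
    have h2 : ∀ᶠ j in (U : Filter ℕ), ∀ v ∈ S, ∀ i',
      Real.log (nv (.inr v) (if i' = m (.inr v) then ∑ l, b l * y j l else y j i') *
        Real.exp (-(t j * c (.inr v) i'))) ≤
          ε * t j - (if (Sum.inr v : Pl K) = .inl v₀ then t j / r else 0) := by
      rw [Filter.eventually_all_finset]
      exact fun v _ => hloc (.inr v)
    filter_upwards [h2, hpos] with j hj hpj v hv
    unfold tn
    refine SU1.log_iSup_le hr _ ?_ _ ?_
    · intro i'
      simp only [SU1.Fm, SU1.Lm, hv, if_true, SU1.upd_mulVec, sc]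
      exact hpj (.inr v) i'
    · intro i'
      simp only [SU1.Fm, SU1.Lm, hv, if_true, SU1.upd_mulVec, sc]
      have := hj v hv i'
      simpa using this
  have htnO : ∀ j, ∀ v : FinitePlace K, v ∉ S →
      tn (SU1.Fm S b hb m) (sc (t j) c) (.inr v) (y j) = vn (.inr v) (y j) := by
    intro j v hv
    unfold tn vn
    congr 1
    funext i'
    simp only [SU1.Fm, SU1.Lm, hv, if_false, Matrix.one_mulVec, sc]
    rw [hcS v hv]
    simp
  have hFtn : ∀ j, FinS (fun v => Real.log (tn (SU1.Fm S b hb m) (sc (t j) c) v (y j))) := by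
    intro j
    have h2 : FinS (fun v => Real.log (vn v (y j))) := finS_vn (hy0 j)
    refine Set.Finite.subset (h2.union S.finite_toSet) fun v hv => ?_
    by_cases hvS : v ∈ S
    · exact Or.inr hvS
    · left
      rw [Function.mem_support] at hv ⊢
      intro h
      apply hv
      show Real.log (tn (SU1.Fm S b hb m) (sc (t j) c) (.inr v) (y j)) = 0
      rw [htnO j v hvS]
      exact h
  have hsmall : ∀ᶠ j in (U : Filter ℕ), d j ≤ 1 / (4 * r) * t j := by
    have h2 := hdt.eventually (Iio_mem_nhds (show (0 : ℝ) < 1 / (4 * r) by positivity))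
    filter_upwards [h2, htpos] with j hj htj
    have h3 : d j / t j < 1 / (4 * r) := hj
    rw [div_lt_iff₀ htj] at h3
    exact h3.le
  refine subspace_stub (SU1.Fm S b hb m) c hcS hdeg U t ht (1 / (4 * r)) (by positivity) y ?_
  filter_upwards [hlocI, hlocS, hall, hsmall] with j hI hS hO hsm
  refine ⟨hy0 j, ?_⟩
  unfold tH
  rw [gsum_split S (hFtn j)]
  have s0 : gsum (offS S fun v => Real.log (tn (SU1.Fm S b hb m) (sc (t j) c) v (y j))) ≤ d j := by
    have h2 : (offS S fun v => Real.log (tn (SU1.Fm S b hb m) (sc (t j) c) v (y j))) =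
        offS S fun v => Real.log (vn v (y j)) := by
      funext v
      rcases v with v | v
      · rfl
      · by_cases hv : v ∈ S
        · simp [offS, hv]
        · simp only [offS, hv, if_false]
          rw [htnO j v hv]
    rw [h2]
    exact (le_abs_self _).trans (off_vn_le S (y j) hO i0)
  rw [SU1.gsum_eq_of_S S (inS S _) (fun v hv => by simp [inS, hv])]
  have s1 : ∑ v : InfinitePlace K,
      inS S (fun v => Real.log (tn (SU1.Fm S b hb m) (sc (t j) c) v (y j))) (.inl v) ≤
      ∑ v : InfinitePlace K, (ε * t j - (if v = v₀ then t j / r else 0)) :=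
    Finset.sum_le_sum fun v _ => hI v
  have s2 : ∑ v ∈ S, inS S (fun v => Real.log (tn (SU1.Fm S b hb m) (sc (t j) c) v (y j))) (.inr v) ≤
      ∑ v ∈ S, ε * t j := Finset.sum_le_sum fun v hv => by
    simp only [inS, hv, if_true]
    exact hS v hv
  rw [Finset.sum_sub_distrib, Finset.sum_const, Finset.sum_ite_eq' Finset.univ v₀,
    Finset.card_univ, nsmul_eq_mul] at s1
  rw [Finset.sum_const, nsmul_eq_mul] at s2
  simp only [Finset.mem_univ, if_true] at s1
  have s3 : ε * M = 1 / (2 * r) := by
    rw [hε]
    field_simp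
  have s4 : (Fintype.card (InfinitePlace K) : ℝ) * (ε * t j) + S.card * (ε * t j) =
      (ε * M) * t j := by
    rw [hM]
    ring
  rw [s3] at s4
  have s5 : t j / (r : ℝ) = 1 / (2 * r) * t j + 1 / (4 * r) * t j + 1 / (4 * r) * t j := by
    field_simp
    ring
  linarith

end Pool.Agent.Helper77.AU
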