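import Pool.Agent.Helper77.AU.Indep
import Pool.Agent.Helper16.SL.Germs

/-!
# Almost units: the germs

`slowK U t ht`: the field of the germs of slow sequences in `k`. `slow_dat`: a `Dat` over this field; the ring consists of the germs of
the sequences in `k` which are almost integral outside `S`, its units are the germs of almost units.
-/

set_option autoImplicit false

namespace Pool.Agent.Helper77.AU

open NumberField
open Pool.Agent.V2
open Pool.Agent.Helper64.Vojta (Pl nv)
open Pool.Agent.Helper26.DMC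
open Filter Topology
open Pool.Agent.Helper64.Vojta (nv_nonneg nv_mul nv_one nv_zero nv_pos nv_inv)
open Pool.Agent.SL (Om gm gm_eq gm_zero gm_cst gm_inv Dat)

universe u

variable {k : Type u} [Field k] [NumberField k]

/-! ## slow sequences -/

theorem Slow.congr {U : Ultrafilter ℕ} {t : ℕ → ℝ} {a b : ℕ → k} (ha : Slow U t a)
    (h : ∀ᶠ j in (U : Filter ℕ), a j = b j) : Slow U t b := by
  refine (tendsto_congr' ?_).mp ha
  filter_upwards [h] with j hj
  rw [hj]

theorem Slow.mul {U : Ultrafilter ℕ} {t : ℕ → ℝ} {a b : ℕ → k} (ht : Tendsto t U atTop)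
    (ha : Slow U t a) (hb : Slow U t b) : Slow U t (fun j => a j * b j) := by
  have h := ha.add hb
  rw [add_zero] at h
  have htpos : ∀ᶠ j in (U : Filter ℕ), 0 < t j := ht.eventually_gt_atTop 0
  refine tendsto_zero_of_le ?_ ?_ h
  · filter_upwards [htpos] with j hj
    exact div_nonneg (Height.zero_le_logHeight₁ _) hj.le
  · filter_upwards [htpos] with j hj
    rw [← add_div]
    exact div_le_div_of_nonneg_right (Height.logHeight₁_mul_le _ _) hj.le

theorem Slow.inv {U : Ultrafilter ℕ} {t : ℕ → ℝ} {a : ℕ → k} (ha : Slow U t a) :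
    Slow U t (fun j => (a j)⁻¹) := by
  refine (tendsto_congr fun j => ?_).mp ha
  rw [Height.logHeight₁_inv]

theorem Slow.div {U : Ultrafilter ℕ} {t : ℕ → ℝ} {a b : ℕ → k} (ht : Tendsto t U atTop)
    (ha : Slow U t a) (hb : Slow U t b) : Slow U t (fun j => a j / b j) := by
  simp_rw [div_eq_mul_inv]
  exact ha.mul ht hb.inv

theorem Slow.cst {U : Ultrafilter ℕ} {t : ℕ → ℝ} (ht : Tendsto t U atTop) (a : k) :
    Slow U t (fun _ => a) :=
  tendsto_const_nhds.div_atTop ht

theorem Slow.add {U : Ultrafilter ℕ} {t : ℕ → ℝ} {a b : ℕ → k} (ht : Tendsto t U atTop)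
    (ha : Slow U t a) (hb : Slow U t b) : Slow U t (fun j => a j + b j) := by
  have h0 : Tendsto (fun j => (Height.totalWeight k * Real.log 2 : ℝ) / t j) U (𝓝 0) :=
    tendsto_const_nhds.div_atTop ht
  have h := (h0.add ha).add hb
  rw [add_zero, add_zero] at h
  have htpos : ∀ᶠ j in (U : Filter ℕ), 0 < t j := ht.eventually_gt_atTop 0
  refine tendsto_zero_of_le ?_ ?_ h
  · filter_upwards [htpos] with j hj
    exact div_nonneg (Height.zero_le_logHeight₁ _) hj.le
  · filter_upwards [htpos] with j hj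
    rw [← add_div, ← add_div]
    exact div_le_div_of_nonneg_right (Height.logHeight₁_add_le _ _) hj.le

/-! ## germs of sequences in `k` -/

/-- the germ of a sequence in `k` -/
noncomputable def gk (U : Ultrafilter ℕ) (z : ℕ → k) : Om k U :=
  gm U fun n => algebraMap k (AlgebraicClosure k) (z n)

theorem gk_eq (U : Ultrafilter ℕ) (a b : ℕ → k) : gk U a = gk U b ↔ ∀ᶠ j in (U : Filter ℕ), a j = b j := by
  unfold gk
  rw [gm_eq]
  constructor
  · intro h
    filter_upwards [h] with j hj
    exact (algebraMap k (AlgebraicClosure k)).injective hj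
  · intro h
    filter_upwards [h] with j hj
    rw [hj]

theorem gk_zero (U : Ultrafilter ℕ) (a : ℕ → k) : gk U a = 0 ↔ ∀ᶠ j in (U : Filter ℕ), a j = 0 := by
  unfold gk
  rw [gm_zero]
  constructor
  · intro h
    filter_upwards [h] with j hj
    exact (map_eq_zero _).1 hj
  · intro h
    filter_upwards [h] with j hj
    rw [hj, map_zero]

theorem gk_add (U : Ultrafilter ℕ) (a b : ℕ → k) : gk U (fun j => a j + b j) = gk U a + gk U b := by
  unfold gk
  rw [← map_add (gm U)]
  congr 1
  funext j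
  exact map_add _ _ _

theorem gk_mul (U : Ultrafilter ℕ) (a b : ℕ → k) : gk U (fun j => a j * b j) = gk U a * gk U b := by
  unfold gk
  rw [← map_mul (gm U)]
  congr 1
  funext j
  exact map_mul _ _ _

theorem gk_inv (U : Ultrafilter ℕ) (a : ℕ → k) : gk U (fun j => (a j)⁻¹) = (gk U a)⁻¹ := by
  unfold gk
  rw [gm_inv]
  congr 1
  funext j
  exact map_inv₀ _ _

theorem gk_div (U : Ultrafilter ℕ) (a b : ℕ → k) : gk U (fun j => a j / b j) = gk U a / gk U b := by
  simp_rw [div_eq_mul_inv]
  rw [gk_mul, gk_inv]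

theorem gk_pow (U : Ultrafilter ℕ) (a : ℕ → k) (n : ℕ) : gk U (fun j => a j ^ n) = gk U a ^ n := by
  unfold gk
  rw [← map_pow (gm U)]
  congr 1
  funext j
  exact map_pow _ _ _

theorem gk_sum (U : Ultrafilter ℕ) {α : Type*} (s : Finset α) (a : α → ℕ → k) :
    gk U (fun j => ∑ i ∈ s, a i j) = ∑ i ∈ s, gk U (a i) := by
  classical
  induction s using Finset.induction_on with
  | empty =>
    simp only [Finset.sum_empty]
    rw [gk_zero]
    exact Eventually.of_forall fun _ => rfl
  | insert x s hx ih =>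
    simp only [Finset.sum_insert hx]
    rw [gk_add, ih]

theorem gk_cst (U : Ultrafilter ℕ) (a : k) : gk U (fun _ => a) = algebraMap k (Om k U) a := rfl

/-- the field of slow germs -/
noncomputable def slowK (U : Ultrafilter ℕ) (t : ℕ → ℝ) (ht : Tendsto t U atTop) :
    IntermediateField k (Om k U) where
  carrier := {y | ∃ z : ℕ → k, Slow U t z ∧ gk U z = y}
  mul_mem' := by
    rintro _ _ ⟨a, ha, rfl⟩ ⟨b, hb, rfl⟩
    exact ⟨_, ha.mul ht hb, gk_mul U a b⟩
  add_mem' := by
    rintro _ _ ⟨a, ha, rfl⟩ ⟨b, hb, rfl⟩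
    exact ⟨_, ha.add ht hb, gk_add U a b⟩
  algebraMap_mem' := by
    intro a
    exact ⟨_, Slow.cst ht a, gk_cst U a⟩
  inv_mem' := by
    rintro _ ⟨a, ha, rfl⟩
    exact ⟨_, ha.inv, gk_inv U a⟩

theorem mem_slowK {U : Ultrafilter ℕ} {t : ℕ → ℝ} {ht : Tendsto t U atTop} {y : Om k U} :
    y ∈ slowK U t ht ↔ ∃ z : ℕ → k, Slow U t z ∧ gk U z = y := Iff.rfl

/-! ## almost integers -/

/-- the sum of `log⁺ |a|_v` over the places outside `S` -/
noncomputable def pos (S : Finset (FinitePlace k)) (a : k) : ℝ :=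
  gsum (offS S fun v => max 0 (Real.log (nv v a)))

theorem finS_pos' (a : k) : FinS (fun v => max 0 (Real.log (nv v a))) := by
  by_cases ha : a = 0
  · have h : (fun v : Pl k => max 0 (Real.log (nv v a))) = fun _ => 0 := by
      funext v
      rw [ha, nv_zero, Real.log_zero, max_self]
    rw [h]
    exact FinS.zero
  · refine Set.Finite.subset (finS_nv ha) fun v hv => ?_
    rw [Function.mem_support] at hv ⊢
    intro h
    apply hv
    show max 0 (Real.log (nv (.inr v) a)) = 0
    have h' : Real.log (nv (.inr v) a) = 0 := h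
    rw [h', max_self]

theorem finS_pos (S : Finset (FinitePlace k)) (a : k) :
    FinS (offS S fun v => max 0 (Real.log (nv v a))) := finS_offS S (finS_pos' a)

theorem pos_nonneg (S : Finset (FinitePlace k)) (a : k) : 0 ≤ pos S a :=
  gsum_nonneg (offS_nonneg S fun _ => le_max_left _ _)

theorem pos_zero (S : Finset (FinitePlace k)) : pos S (0 : k) = 0 := by
  have h : (offS S fun v : Pl k => max 0 (Real.log (nv v (0 : k)))) = fun _ => 0 := by
    funext v
    rcases v with v | v
    · rfl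
    · by_cases hv : v ∈ S
      · simp [offS, hv]
      · simp only [offS, hv, if_false]
        rw [nv_zero, Real.log_zero, max_self]
  unfold pos
  rw [h]
  exact gsum_zero

theorem pos_le_of (S : Finset (FinitePlace k)) (a b c : k)
    (h : ∀ v : FinitePlace k, v ∉ S → max 0 (Real.log (nv (.inr v) c)) ≤
      max 0 (Real.log (nv (.inr v) a)) + max 0 (Real.log (nv (.inr v) b))) :
    pos S c ≤ pos S a + pos S b := by
  unfold pos
  rw [← gsum_add (finS_pos S a) (finS_pos S b)]
  refine gsum_mono (finS_pos S c) ((finS_pos S a).add (finS_pos S b)) fun v => ?_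
  rcases v with v | v
  · simp [offS]
  · by_cases hv : v ∈ S
    · simp [offS, hv]
    · simp only [offS, hv, if_false]
      exact h v hv

theorem pos_mul_le (S : Finset (FinitePlace k)) (a b : k) : pos S (a * b) ≤ pos S a + pos S b := by
  by_cases ha : a = 0
  · rw [ha, zero_mul, pos_zero]
    linarith [pos_nonneg S b]
  by_cases hb : b = 0
  · rw [hb, mul_zero, pos_zero]
    linarith [pos_nonneg S a]
  refine pos_le_of S a b _ fun v _ => ?_
  rw [nv_mul, Real.log_mul (nv_pos _ ha).ne' (nv_pos _ hb).ne']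
  refine max_le (add_nonneg (le_max_left _ _) (le_max_left _ _)) ?_
  exact add_le_add (le_max_right _ _) (le_max_right _ _)

theorem pos_add_le (S : Finset (FinitePlace k)) (a b : k) : pos S (a + b) ≤ pos S a + pos S b := by
  by_cases ha : a = 0
  · rw [ha, zero_add, pos_zero]
    linarith [pos_nonneg S b]
  by_cases hb : b = 0
  · rw [hb, add_zero, pos_zero]
    linarith [pos_nonneg S a]
  by_cases hab : a + b = 0
  · rw [hab, pos_zero]
    linarith [pos_nonneg S a, pos_nonneg S b]
  refine pos_le_of S a b _ fun v _ => ?_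
  have h1 : nv (.inr v) (a + b) ≤ max (nv (.inr v) a) (nv (.inr v) b) := FinitePlace.add_le v a b
  have h2 := Real.log_le_log (nv_pos (.inr v) hab) h1
  have h3 : (0 : ℝ) ≤ max 0 (Real.log (nv (.inr v) a)) := le_max_left _ _
  have h4 : (0 : ℝ) ≤ max 0 (Real.log (nv (.inr v) b)) := le_max_left _ _
  refine max_le (add_nonneg h3 h4) (h2.trans ?_)
  rcases le_total (nv (.inr v) a) (nv (.inr v) b) with h | h
  · rw [max_eq_right h]
    linarith [le_max_right 0 (Real.log (nv (.inr v) b))]
  · rw [max_eq_left h]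
    linarith [le_max_right 0 (Real.log (nv (.inr v) a))]

theorem pos_le_out (S : Finset (FinitePlace k)) {a : k} (ha : a ≠ 0) : pos S a ≤ out S a :=
  gsum_mono (finS_pos S a) (finS_out S ha) fun v =>
    offS_mono S (fun v => max_le (abs_nonneg _) (le_abs_self _)) v

theorem out_le_pos (S : Finset (FinitePlace k)) {a : k} (ha : a ≠ 0) :
    out S a ≤ pos S a + pos S a⁻¹ := by
  unfold pos out
  rw [← gsum_add (finS_pos S a) (finS_pos S a⁻¹)]
  refine gsum_mono (finS_out S ha) ((finS_pos S a).add (finS_pos S a⁻¹)) fun v => ?_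
  rcases v with v | v
  · simp [offS]
  · by_cases hv : v ∈ S
    · simp [offS, hv]
    · simp only [offS, hv, if_false]
      rw [nv_inv, Real.log_inv]
      rcases le_total 0 (Real.log (nv (.inr v) a)) with h | h
      · rw [abs_of_nonneg h, max_eq_right h, max_eq_left (by linarith), add_zero]
      · rw [abs_of_nonpos h, max_eq_left h, max_eq_right (by linarith), zero_add]

/-- almost integral outside `S` -/
def AInt (U : Ultrafilter ℕ) (S : Finset (FinitePlace k)) (t : ℕ → ℝ) (a : ℕ → k) : Prop :=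
  Tendsto (fun j => pos S (a j) / t j) U (𝓝 0)

theorem AInt.of_le {U : Ultrafilter ℕ} {S : Finset (FinitePlace k)} {t : ℕ → ℝ} {a b c : ℕ → k}
    (ht : Tendsto t U atTop) (ha : AInt U S t a) (hb : AInt U S t b)
    (h : ∀ j, pos S (c j) ≤ pos S (a j) + pos S (b j)) : AInt U S t c := by
  have h1 := Tendsto.add ha hb
  rw [add_zero] at h1
  have htpos : ∀ᶠ j in (U : Filter ℕ), 0 < t j := ht.eventually_gt_atTop 0
  refine tendsto_zero_of_le ?_ ?_ h1
  · filter_upwards [htpos] with j hj
    exact div_nonneg (pos_nonneg S _) hj.le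
  · filter_upwards [htpos] with j hj
    rw [← add_div]
    exact div_le_div_of_nonneg_right (h j) hj.le

theorem AU.aint {U : Ultrafilter ℕ} {S : Finset (FinitePlace k)} {t : ℕ → ℝ} {a : ℕ → k}
    (ht : Tendsto t U atTop) (ha : AU U S t a) : AInt U S t a := by
  have htpos : ∀ᶠ j in (U : Filter ℕ), 0 < t j := ht.eventually_gt_atTop 0
  refine tendsto_zero_of_le ?_ ?_ ha.2
  · filter_upwards [htpos] with j hj
    exact div_nonneg (pos_nonneg S _) hj.le
  · filter_upwards [htpos, ha.1] with j hj h1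
    exact div_le_div_of_nonneg_right (pos_le_out S h1) hj.le

theorem Slow.aint {U : Ultrafilter ℕ} (S : Finset (FinitePlace k)) {t : ℕ → ℝ} {a : ℕ → k}
    (ht : Tendsto t U atTop) (ha : Slow U t a) : AInt U S t a := by
  have htpos : ∀ᶠ j in (U : Filter ℕ), 0 < t j := ht.eventually_gt_atTop 0
  have h := Tendsto.const_mul 2 ha
  rw [mul_zero] at h
  refine tendsto_zero_of_le ?_ ?_ h
  · filter_upwards [htpos] with j hj
    exact div_nonneg (pos_nonneg S _) hj.le
  · filter_upwards [htpos] with j hj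
    rw [mul_div_assoc']
    refine div_le_div_of_nonneg_right ?_ hj.le
    by_cases h0 : a j = 0
    · rw [h0, pos_zero, Height.logHeight₁_zero, mul_zero]
    · exact (pos_le_out S h0).trans (out_le S h0)

/-- the ring of almost integral germs -/
noncomputable def aiR (U : Ultrafilter ℕ) (S : Finset (FinitePlace k)) (t : ℕ → ℝ)
    (ht : Tendsto t U atTop) : Subalgebra (slowK (k := k) U t ht) (Om k U) where
  carrier := {y | ∃ z : ℕ → k, AInt U S t z ∧ gk U z = y}
  mul_mem' := by
    rintro _ _ ⟨a, ha, rfl⟩ ⟨b, hb, rfl⟩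
    exact ⟨_, ha.of_le ht hb fun j => pos_mul_le S _ _, gk_mul U a b⟩
  add_mem' := by
    rintro _ _ ⟨a, ha, rfl⟩ ⟨b, hb, rfl⟩
    exact ⟨_, ha.of_le ht hb fun j => pos_add_le S _ _, gk_add U a b⟩
  algebraMap_mem' := by
    rintro ⟨_, ⟨z, hz, rfl⟩⟩
    exact ⟨z, hz.aint S ht, rfl⟩

theorem exists_au (U : Ultrafilter ℕ) (S : Finset (FinitePlace k)) (t : ℕ → ℝ)
    (ht : Tendsto t U atTop) (y : Om k U) (h0 : y ≠ 0) (h1 : y ∈ aiR U S t ht)
    (h2 : y⁻¹ ∈ aiR U S t ht) : ∃ z : ℕ → k, AU U S t z ∧ gk U z = y := by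
  obtain ⟨z, hz, rfl⟩ := h1
  obtain ⟨w, hw, hwz⟩ := h2
  rw [← gk_inv, gk_eq] at hwz
  have hz0 : ∀ᶠ j in (U : Filter ℕ), z j ≠ 0 := by
    rw [Ultrafilter.eventually_not]
    intro h
    exact h0 ((gk_zero U z).2 h)
  refine ⟨z, ⟨hz0, ?_⟩, rfl⟩
  have h3 := Tendsto.add hz hw
  rw [add_zero] at h3
  have htpos : ∀ᶠ j in (U : Filter ℕ), 0 < t j := ht.eventually_gt_atTop 0
  refine tendsto_zero_of_le ?_ ?_ h3
  · filter_upwards [htpos] with j hj
    exact div_nonneg (out_nonneg S _) hj.le
  · filter_upwards [htpos, hz0, hwz] with j hj h4 h5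
    rw [← add_div, h5]
    exact div_le_div_of_nonneg_right (out_le_pos S h4) hj.le

theorem slow_indep (U : Ultrafilter ℕ) (S : Finset (FinitePlace k)) (t : ℕ → ℝ)
    (ht : Tendsto t U atTop) {n : ℕ} (y : Fin n → Om k U)
    (hy : ∀ i, y i ≠ 0 ∧ y i ∈ aiR U S t ht ∧ (y i)⁻¹ ∈ aiR U S t ht)
    (hne : ∀ i j, i ≠ j → ∀ a : slowK (k := k) U t ht, y i ≠ algebraMap _ (Om k U) a * y j) :
    LinearIndependent (slowK (k := k) U t ht) y := by
  classical
  have htpos : ∀ᶠ j in (U : Filter ℕ), 0 < t j := ht.eventually_gt_atTop 0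
  choose z hz hzy using fun i => exists_au U S t ht (y i) (hy i).1 (hy i).2.1 (hy i).2.2
  rw [Fintype.linearIndependent_iff]
  intro c hc
  by_contra hcon
  push Not at hcon
  obtain ⟨i1, hi1⟩ := hcon
  choose s hs hsc using fun i => (mem_slowK (k := k)).1 (c i).2
  set T : Finset (Fin n) := Finset.univ.filter fun i => c i ≠ 0 with hT
  set f : Fin T.card ≃ T := (T.equivFin).symm with hf
  have hfT : ∀ l, c (f l) ≠ 0 := fun l => (Finset.mem_filter.1 (f l).2).2
  have hs0 : ∀ l, ∀ᶠ j in (U : Filter ℕ), s (f l) j ≠ 0 := by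
    intro l
    rw [Ultrafilter.eventually_not]
    intro h
    apply hfT l
    rw [← Subtype.coe_inj, ← hsc, ZeroMemClass.coe_zero, gk_zero]
    exact h
  have hw : ∀ l, AU U S t (fun j => s (f l) j * z (f l) j) := fun l =>
    ((hs (f l)).au S htpos (hs0 l)).mul htpos (hz (f l))
  have hne' : ∀ l l', l ≠ l' → ¬ Slow U t (fun j => s (f l) j * z (f l) j / (s (f l') j * z (f l') j)) := by
    intro l l' hll h
    have h1 : Slow U t (fun j => (s (f l) j * z (f l) j / (s (f l') j * z (f l') j)) *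
        (s (f l') j / s (f l) j)) := h.mul ht ((hs _).div ht (hs _))
    have h2 : Slow U t (fun j => z (f l) j / z (f l') j) := by
      refine h1.congr ?_
      filter_upwards [hs0 l, hs0 l', (hz (f l')).1] with j h3 h4 h5
      field_simp
    refine hne (f l) (f l') (fun h3 => hll (f.injective (Subtype.ext h3))) ⟨gk U _, _, h2, rfl⟩ ?_
    show y (f l) = gk U _ * y (f l')
    rw [← hzy, ← hzy, ← gk_mul, gk_eq]
    filter_upwards [(hz (f l')).1] with j h5
    rw [div_mul_cancel₀ _ h5]
  have hsum : ∀ᶠ j in (U : Filter ℕ), ∑ l, (fun _ : Fin T.card => (1 : k)) l * (s (f l) j * z (f l) j) = 0 := by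
    have h1 : gk U (fun j => ∑ i, s i j * z i j) = 0 := by
      rw [gk_sum, ← hc]
      refine Finset.sum_congr rfl fun i _ => ?_
      rw [gk_mul, hsc, hzy]
      rfl
    rw [gk_zero] at h1
    have h2 : ∀ i, i ∉ T → ∀ᶠ j in (U : Filter ℕ), s i j = 0 := by
      intro i hi
      rw [← gk_zero, hsc]
      have : c i = 0 := by
        by_contra h
        exact hi (Finset.mem_filter.2 ⟨Finset.mem_univ _, h⟩)
      rw [this]
      rfl
    have h3 : ∀ᶠ j in (U : Filter ℕ), ∀ i, i ∉ T → s i j = 0 := by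
      rw [Filter.eventually_all]
      intro i
      by_cases hi : i ∈ T
      · exact Eventually.of_forall fun j h => absurd hi h
      · filter_upwards [h2 i hi] with j hj _
        exact hj
    filter_upwards [h1, h3] with j hj hj'
    have h4 : ∑ i, s i j * z i j = ∑ i ∈ T, s i j * z i j := by
      refine (Finset.sum_subset (Finset.subset_univ T) ?_).symm
      intro i _ hi
      rw [hj' i hi, zero_mul]
    have h5 : ∑ i ∈ T, s i j * z i j = ∑ l, s (f l) j * z (f l) j := by
      rw [← Finset.sum_coe_sort T (fun i => s i j * z i j)]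
      exact (Equiv.sum_comp f (fun i : T => s i j * z i j)).symm
    simp only [one_mul]
    rw [← h5, ← h4, hj]
  have h1 := au_indep U S t ht (fun l j => s (f l) j * z (f l) j) hw hne' (fun _ => 1) hsum
  have h2 : i1 ∈ T := Finset.mem_filter.2 ⟨Finset.mem_univ _, hi1⟩
  have h3 := congrFun h1 (f.symm ⟨i1, h2⟩)
  exact one_ne_zero h3

/-- THE DATUM OF SLOW GERMS AND ALMOST UNITS -/
theorem slow_dat (U : Ultrafilter ℕ) (S : Finset (FinitePlace k)) (t : ℕ → ℝ)
    (ht : Tendsto t U atTop) : ∃ D : Dat (slowK (k := k) U t ht) (Om k U),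
    (∀ y : Om k U, y ∈ D.R ↔ ∃ z : ℕ → k, AInt U S t z ∧ gk U z = y) ∧
    (∀ y : Om k U, D.U y ↔ ∃ z : ℕ → k, AU U S t z ∧ gk U z = y) := by
  refine ⟨⟨aiR U S t ht, fun n y hy hne => slow_indep U S t ht y hy hne, ?_⟩, fun y => Iff.rfl, ?_⟩
  · rintro _ ⟨z, hz, rfl⟩ n hn ⟨_, ⟨s, hs, rfl⟩⟩ h
    have h1 : ∀ᶠ j in (U : Filter ℕ), z j ^ n = s j := by
      have h2 : gk U z ^ n = gk U s := h
      rwa [← gk_pow, gk_eq] at h2
    have h2 : Slow U t z := by
      have h3 := Tendsto.const_mul ((n : ℝ)⁻¹) hs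
      rw [mul_zero] at h3
      refine (tendsto_congr' ?_).mp h3
      filter_upwards [h1] with j hj
      rw [← hj, Height.logHeight₁_pow]
      have : (n : ℝ) ≠ 0 := by exact_mod_cast hn.ne'
      field_simp
    exact ⟨⟨gk U z, z, h2, rfl⟩, rfl⟩
  · intro y
    constructor
    · rintro ⟨h0, h1, h2⟩
      exact exists_au U S t ht y h0 h1 h2
    · rintro ⟨z, hz, rfl⟩
      refine ⟨?_, ⟨z, hz.aint ht, rfl⟩, ⟨_, hz.inv.aint ht, gk_inv U z⟩⟩
      intro h
      rw [gk_zero] at h
      obtain ⟨j, h1, h2⟩ := (h.and hz.1).exists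
      exact h2 h1

end Pool.Agent.Helper77.AU
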