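import Pool.Agent.Helper95.AU.Defs
import Pool.Agent.Helper82.AN.Growth

/-! Project AU, block U5: growth, from the blocks U3 (`los_all`), U4 (`init_g`) and U5a (`dbl`) as hypotheses.

The proof of `growth_z` (project AN, `Helper82/AN/GrowthZ.lean`) with `c = 2 - ε / 2`, `ε / 2` in the place of `c`, `ε`: `2 ^ i₀`
about `|a| ^ (c - 3 δ)` steps by `init_g` with `K = |a| ^ δ`, then the doubling. -/

set_option autoImplicit false
open MeasureTheory Real Set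
open scoped ENNReal

namespace Pool.Agent.Helper77.AU

open Pool.Agent.Helper18.UC (nn LL sqo rep toT)
open Pool.Agent.Helper46.QP (TT Td)
open Pool.Agent.Helper82.AN (Ow lawL eta Hw sq SepR Hw_ae eta_cont)
open Pool.Agent.Helper95.AF (st po mt pM shb Fa gA up5 un5 frc DC Ho)
open Pool.Agent.Helper95.AU (lo ml mg)

variable {d : ℕ}

private theorem ho_contU77 {f : Td d → ℝ} (hf : Ho f) : Continuous f := by
  obtain ⟨K, r, hr, h⟩ := hf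
  rw [continuous_iff_continuousAt]
  intro x
  unfold ContinuousAt
  rw [tendsto_iff_dist_tendsto_zero]
  have h1 : Filter.Tendsto (fun y : Td d => K * dist y x ^ r) (nhds x) (nhds (K * (0 : ℝ) ^ r)) := by
    refine Filter.Tendsto.const_mul K ?_
    have h2 : Filter.Tendsto (fun y : Td d => dist y x) (nhds x) (nhds 0) := by
      have h3 := (continuous_id.dist (continuous_const (y := x))).tendsto x
      simpa using h3
    exact (Real.continuousAt_rpow_const 0 r (Or.inr hr.le)).tendsto.comp h2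
  rw [Real.zero_rpow hr.ne', mul_zero] at h1
  refine squeeze_zero (fun y => dist_nonneg) (fun y => ?_) h1
  rw [Real.dist_eq]
  exact h y x

/-- the scales, two consecutive entries -/
private theorem scalesU77 {δ ε c b : ℝ} (hδ : 0 < δ) (hδ8 : δ < c / 8) (hδε : δ < ε / 14) (hc2 : c < 2)
    (hb : 0 < b) {C₁ C₂ κ₁ : ℝ} (hC : 0 ≤ C₁) (hC₂ : 0 ≤ C₂) (hκ₁ : 0 < κ₁) (i₁ : ℕ) {D : ℕ} (hD : 4 / c ≤ D) :
    ∃ X : ℝ, ∀ x : ℝ, X ≤ x → 1 ≤ x ∧ 1 ≤ b * x ∧ 4 ≤ x ^ δ ∧ ∃ i₀ : ℕ, i₁ ≤ i₀ ∧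
      x ≤ (2 : ℝ) ^ (D * i₀) ∧ x ^ (c - ε) ≤ (2 : ℝ) ^ ((1 - 2 * δ) * i₀) ∧
      C₁ * (2 : ℝ) ^ (-δ * i₀) + 4 / x ^ δ +
        (2 : ℝ) ^ i₀ * (C₂ * (x ^ δ / (b * x) ^ 2) ^ (c / 2)) * Real.log (2 * π * (κ₁ * x) + 4) ≤
          x ^ (-(δ * c / 4)) := by
  have hε : 0 < ε := by linarith
  have hc : 0 < c := by linarith
  set c₂ : ℝ := (2 * π * κ₁ + 4) ^ δ / δ with hc₂
  have hc₂0 : 0 ≤ c₂ := by positivity
  set C₃ : ℝ := C₂ * (1 / b ^ 2) ^ (c / 2) with hC₃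
  have hC₃0 : 0 ≤ C₃ := by positivity
  set Ct : ℝ := 2 * C₁ + 4 + C₃ * c₂ with hCt
  have e1 := (tendsto_rpow_atTop hδ).eventually_ge_atTop (4 : ℝ)
  have e2 := (tendsto_rpow_atTop (show 0 < δ * c / 4 by positivity)).eventually_ge_atTop Ct
  have e3 := (Real.tendsto_logb_atTop (b := 2) one_lt_two).eventually_ge_atTop
    (2 / ε + (((max i₁ 2 : ℕ) : ℝ) + 1) * (2 / c))
  obtain ⟨X, hX⟩ := Filter.eventually_atTop.1 ((Filter.eventually_ge_atTop (max 1 (1 / b))).and ((e1.and e2).and e3))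
  refine ⟨X, fun x hx => ?_⟩
  obtain ⟨h1', ⟨hV, hCx⟩, hl⟩ := hX x hx
  have h1 : 1 ≤ x := (le_max_left _ _).trans h1'
  have hb1 : 1 / b ≤ x := (le_max_right _ _).trans h1'
  have hx0 : 0 < x := zero_lt_one.trans_le h1
  refine ⟨h1, ?_, hV, ?_⟩
  · rw [div_le_iff₀ hb] at hb1
    linarith
  set ℓ := Real.logb 2 x with hℓ
  have hxl : x = (2 : ℝ) ^ ℓ := (Real.rpow_logb two_pos (by norm_num) hx0).symm
  have hpos2 : 0 < 2 / ε := by positivity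
  have hM0 : (0 : ℝ) ≤ ((max i₁ 2 : ℕ) : ℝ) := Nat.cast_nonneg _
  have hMc : 0 ≤ (((max i₁ 2 : ℕ) : ℝ) + 1) * (2 / c) := by positivity
  have hl0 : 0 ≤ ℓ := by linarith
  have hl1 : (((max i₁ 2 : ℕ) : ℝ) + 1) * (2 / c) ≤ ℓ := by linarith
  have hl1' : ((max i₁ 2 : ℕ) : ℝ) + 1 ≤ c / 2 * ℓ := by
    have h := mul_le_mul_of_nonneg_left hl1 (show 0 ≤ c / 2 by positivity)
    have h' : c / 2 * ((((max i₁ 2 : ℕ) : ℝ) + 1) * (2 / c)) = ((max i₁ 2 : ℕ) : ℝ) + 1 := by field_simp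
    linarith
  have hl2 : 2 / ε ≤ ℓ := by linarith
  have hl3 : 1 ≤ ε / 2 * ℓ := by
    rw [div_le_iff₀ hε] at hl2
    linarith
  have hxs : ∀ s : ℝ, x ^ s = (2 : ℝ) ^ (ℓ * s) := fun s => by
    rw [hxl, ← Real.rpow_mul two_pos.le]
  have hy1 : 1 ≤ x ^ (c - 3 * δ) := Real.one_le_rpow h1 (by linarith)
  have hN : ⌊x ^ (c - 3 * δ)⌋₊ ≠ 0 := (Nat.floor_pos.2 hy1).ne'
  set i₀ := Nat.log 2 ⌊x ^ (c - 3 * δ)⌋₊ with hi₀
  have ha : (2 : ℝ) ^ i₀ ≤ x ^ (c - 3 * δ) := by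
    have h := Nat.pow_log_le_self 2 hN
    have h' : ((2 ^ i₀ : ℕ) : ℝ) ≤ (⌊x ^ (c - 3 * δ)⌋₊ : ℝ) := by exact_mod_cast h
    push_cast at h'
    exact h'.trans (Nat.floor_le (by linarith))
  have hb2 : x ^ (c - 3 * δ) < (2 : ℝ) ^ (i₀ + 1) := by
    have h := Nat.lt_pow_succ_log_self (b := 2) one_lt_two ⌊x ^ (c - 3 * δ)⌋₊
    have h' : ((⌊x ^ (c - 3 * δ)⌋₊ + 1 : ℕ) : ℝ) ≤ ((2 ^ (i₀ + 1) : ℕ) : ℝ) := by exact_mod_cast h
    push_cast at h'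
    exact (Nat.lt_floor_add_one _).trans_le h'
  have hb' : ℓ * (c - 3 * δ) < i₀ + 1 := by
    rw [hxs, ← Real.rpow_natCast] at hb2
    have := (Real.rpow_lt_rpow_left_iff one_lt_two).1 hb2
    push_cast at this
    exact this
  have h34 : c / 2 * ℓ ≤ ℓ * (c - 3 * δ) := by nlinarith
  have hmi : ((max i₁ 2 : ℕ) : ℝ) < i₀ := by linarith
  have hmi' : max i₁ 2 < i₀ := by exact_mod_cast hmi
  have h2i : (2 : ℝ) ≤ i₀ := by
    have : 2 < i₀ := (le_max_right _ _).trans_lt hmi'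
    exact_mod_cast this.le
  refine ⟨i₀, ((le_max_left _ _).trans_lt hmi').le, ?_, ?_, ?_⟩
  · have e4 : (2 : ℝ) ^ (D * i₀) = (2 : ℝ) ^ ((D : ℝ) * (i₀ : ℝ)) := by
      rw [← Real.rpow_natCast]
      push_cast
      rfl
    rw [e4, hxl]
    refine Real.rpow_le_rpow_of_exponent_le one_le_two ?_
    rw [div_le_iff₀ hc] at hD
    have h5 : c / 2 * ℓ ≤ 2 * i₀ := by linarith
    have h6 : 4 * (i₀ : ℝ) ≤ D * c * i₀ := mul_le_mul_of_nonneg_right hD (by linarith)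
    have h7 : c * ℓ ≤ c * (D * i₀) := by linarith
    exact le_of_mul_le_mul_left h7 hc
  · rw [hxs]
    refine Real.rpow_le_rpow_of_exponent_le one_le_two ?_
    have h5 : (1 - 2 * δ) * (ℓ * (c - 3 * δ) - 1) ≤ (1 - 2 * δ) * i₀ :=
      mul_le_mul_of_nonneg_left (by linarith) (by linarith)
    have h6 : 0 ≤ δ * δ * ℓ := by positivity
    have h7 : δ * ℓ ≤ ε / 14 * ℓ := mul_le_mul_of_nonneg_right hδε.le hl0
    have h8 : δ * ℓ * c ≤ δ * ℓ * 2 := mul_le_mul_of_nonneg_left hc2.le (by positivity)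
    nlinarith
  · have hx34 : 0 < x ^ (-(δ * c / 2)) := Real.rpow_pos_of_pos hx0 _
    have hδc : δ * c / 2 ≤ δ := by nlinarith
    have t1 : (2 : ℝ) ^ (-δ * i₀) ≤ 2 * x ^ (-(δ * c / 2)) := by
      rw [hxs]
      nth_rewrite 2 [← Real.rpow_one 2]
      rw [← Real.rpow_add two_pos]
      refine Real.rpow_le_rpow_of_exponent_le one_le_two ?_
      have h5 : c / 2 * ℓ - 1 ≤ i₀ := by linarith
      nlinarith
    have t2 : x ^ (-δ) ≤ x ^ (-(δ * c / 2)) := Real.rpow_le_rpow_of_exponent_le h1 (by linarith)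
    have t3 : 4 / x ^ δ ≤ 4 * x ^ (-(δ * c / 2)) := by
      rw [div_eq_mul_inv, ← Real.rpow_neg hx0.le]
      exact mul_le_mul_of_nonneg_left t2 (by norm_num)
    have e5 : (x ^ δ / (b * x) ^ 2) ^ (c / 2) = (1 / b ^ 2) ^ (c / 2) * x ^ ((δ - 2) * (c / 2)) := by
      have e6 : x ^ δ / (b * x) ^ 2 = (1 / b ^ 2) * x ^ (δ - 2) := by
        rw [Real.rpow_sub hx0]
        have : x ^ (2 : ℝ) = x ^ 2 := by norm_cast
        rw [this]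
        field_simp
      rw [e6, Real.mul_rpow (by positivity) (by positivity), ← Real.rpow_mul hx0.le]
    have t4 : (2 : ℝ) ^ i₀ * (C₂ * (x ^ δ / (b * x) ^ 2) ^ (c / 2)) ≤ C₃ * x ^ (-(2 * δ)) := by
      have h5 : (2 : ℝ) ^ i₀ * (C₂ * (x ^ δ / (b * x) ^ 2) ^ (c / 2)) ≤
          x ^ (c - 3 * δ) * (C₂ * (x ^ δ / (b * x) ^ 2) ^ (c / 2)) :=
        mul_le_mul_of_nonneg_right ha (by positivity)
      refine h5.trans ?_
      have h6 : x ^ (c - 3 * δ) * (C₂ * (x ^ δ / (b * x) ^ 2) ^ (c / 2)) =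
          C₃ * x ^ (c - 3 * δ + (δ - 2) * (c / 2)) := by
        rw [e5, Real.rpow_add hx0, hC₃]
        ring
      rw [h6]
      refine mul_le_mul_of_nonneg_left (Real.rpow_le_rpow_of_exponent_le h1 ?_) hC₃0
      nlinarith
    have t5 : Real.log (2 * π * (κ₁ * x) + 4) ≤ c₂ * x ^ δ := by
      have h5 : 2 * π * (κ₁ * x) + 4 ≤ (2 * π * κ₁ + 4) * x := by
        have h50 : (2 * π * κ₁ + 4) * x = 2 * π * (κ₁ * x) + 4 * x := by ring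
        rw [h50]
        linarith
      have h6 : 0 < 2 * π * (κ₁ * x) + 4 := by positivity
      refine (Real.log_le_log h6 h5).trans ?_
      refine (Real.log_le_rpow_div (by positivity) hδ).trans (le_of_eq ?_)
      rw [Real.mul_rpow (by positivity) hx0.le, hc₂]
      ring
    have hlog0 : 0 ≤ Real.log (2 * π * (κ₁ * x) + 4) := Real.log_nonneg (by
      have : 0 ≤ 2 * π * (κ₁ * x) := by positivity
      linarith)
    have t6 : (2 : ℝ) ^ i₀ * (C₂ * (x ^ δ / (b * x) ^ 2) ^ (c / 2)) * Real.log (2 * π * (κ₁ * x) + 4) ≤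
        C₃ * c₂ * x ^ (-(δ * c / 2)) := by
      calc _ ≤ C₃ * x ^ (-(2 * δ)) * (c₂ * x ^ δ) :=
            mul_le_mul t4 t5 hlog0 (by positivity)
        _ = C₃ * c₂ * (x ^ (-(2 * δ)) * x ^ δ) := by ring
        _ = C₃ * c₂ * x ^ (-δ) := by
            rw [← Real.rpow_add hx0]
            congr 2
            ring
        _ ≤ C₃ * c₂ * x ^ (-(δ * c / 2)) := mul_le_mul_of_nonneg_left t2 (by positivity)
    have t7 : x ^ (δ * c / 4) * x ^ (-(δ * c / 2)) = x ^ (-(δ * c / 4)) := by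
      rw [← Real.rpow_add hx0]
      congr 1
      ring
    calc _ ≤ C₁ * (2 * x ^ (-(δ * c / 2))) + 4 * x ^ (-(δ * c / 2)) + C₃ * c₂ * x ^ (-(δ * c / 2)) :=
          add_le_add (add_le_add (mul_le_mul_of_nonneg_left t1 hC) t3) t6
      _ = Ct * x ^ (-(δ * c / 2)) := by rw [hCt]; ring
      _ ≤ x ^ (δ * c / 4) * x ^ (-(δ * c / 2)) := mul_le_mul_of_nonneg_right hCx hx34.le
      _ = _ := t7

/-- the doubling of a sequence -/
private theorem dblseq77 {g l : ℕ → ℝ} {δ : ℝ} (hδ : 0 < δ) {i₀ : ℕ} (hd : ∀ m, 2 * g m - l m ≤ g (2 * m))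
    (hl : ∀ i ≥ i₀, l (2 ^ i) ≤ (2 : ℝ) ^ ((1 - δ) * i)) :
    ∀ i ≥ i₀, g (2 ^ i₀) / 2 ^ i₀ - 1 / (2 * (1 - (2 : ℝ) ^ (-δ))) * (2 : ℝ) ^ (-δ * i₀) ≤ g (2 ^ i) / 2 ^ i := by
  have hr1 : (2 : ℝ) ^ (-δ) < 1 := Real.rpow_lt_one_of_one_lt_of_neg one_lt_two (by linarith)
  set C₁ : ℝ := 1 / (2 * (1 - (2 : ℝ) ^ (-δ))) with hC₁
  have hC₁0 : 0 ≤ C₁ := by
    have : 0 < 1 - (2 : ℝ) ^ (-δ) := by linarith
    positivity
  have hC₁' : C₁ * (1 - (2 : ℝ) ^ (-δ)) = 1 / 2 := by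
    have : 1 - (2 : ℝ) ^ (-δ) ≠ 0 := by linarith
    rw [hC₁]
    field_simp
  have hp2 : ∀ i : ℕ, (0 : ℝ) < 2 ^ i := fun i => by positivity
  have hstep : ∀ i ≥ i₀, g (2 ^ i) / 2 ^ i - (2 : ℝ) ^ (-δ * i) / 2 ≤ g (2 ^ (i + 1)) / 2 ^ (i + 1) := by
    intro i hi
    have e1 : 2 ^ (i + 1) = 2 * 2 ^ i := by rw [pow_succ, mul_comm]
    have h5 := hd (2 ^ i)
    have h6 := hl i hi
    rw [e1]
    have e2 : (2 : ℝ) ^ ((1 - δ) * i) = 2 ^ i * (2 : ℝ) ^ (-δ * i) := by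
      rw [← Real.rpow_natCast, ← Real.rpow_add two_pos]
      congr 1
      ring
    rw [e2] at h6
    have e3 : (2 : ℝ) ^ (i + 1) = 2 * 2 ^ i := by rw [pow_succ, mul_comm]
    rw [e3, sub_le_iff_le_add]
    have h7 := hp2 i
    have h8 : g (2 ^ i) / 2 ^ i = (2 * g (2 ^ i)) / (2 * 2 ^ i) := by
      field_simp
    have h9 : (2 : ℝ) ^ (-δ * i) / 2 = (2 ^ i * (2 : ℝ) ^ (-δ * i)) / (2 * 2 ^ i) := by
      field_simp
    rw [h8, h9, ← add_div]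
    exact div_le_div_of_nonneg_right (by linarith) (by positivity)
  have hind : ∀ i ≥ i₀, g (2 ^ i₀) / 2 ^ i₀ - C₁ * ((2 : ℝ) ^ (-δ * i₀) - (2 : ℝ) ^ (-δ * i)) ≤ g (2 ^ i) / 2 ^ i := by
    intro i hi
    induction i, hi using Nat.le_induction with
    | base => simp
    | succ i hi ih =>
      refine le_trans ?_ (hstep i hi)
      have e1 : (2 : ℝ) ^ (-δ * ((i + 1 : ℕ) : ℝ)) = (2 : ℝ) ^ (-δ * i) * (2 : ℝ) ^ (-δ) := by
        rw [← Real.rpow_add two_pos]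
        congr 1
        push_cast
        ring
      rw [e1]
      have e2 : C₁ * ((2 : ℝ) ^ (-δ * i) * (2 : ℝ) ^ (-δ)) = C₁ * (2 : ℝ) ^ (-δ * i) - (2 : ℝ) ^ (-δ * i) / 2 := by
        have e3 : C₁ * (1 - (2 : ℝ) ^ (-δ)) * (2 : ℝ) ^ (-δ * i) = 1 / 2 * (2 : ℝ) ^ (-δ * i) := by
          rw [hC₁']
        linarith
      have e4 : C₁ * ((2 : ℝ) ^ (-δ * i₀) - (2 : ℝ) ^ (-δ * i) * (2 : ℝ) ^ (-δ)) =
          C₁ * ((2 : ℝ) ^ (-δ * i₀) - (2 : ℝ) ^ (-δ * i)) + (2 : ℝ) ^ (-δ * i) / 2 := by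
        rw [mul_sub, mul_sub, e2]
        ring
      rw [e4]
      linarith
  intro i hi
  have h10 := hind i hi
  have h11 : 0 < (2 : ℝ) ^ (-δ * i) := Real.rpow_pos_of_pos two_pos _
  have h12 : C₁ * ((2 : ℝ) ^ (-δ * i₀) - (2 : ℝ) ^ (-δ * i)) ≤ C₁ * (2 : ℝ) ^ (-δ * i₀) :=
    mul_le_mul_of_nonneg_left (by linarith) hC₁0
  linarith

theorem frc_cont {γ : ℝ} (hγ : 0 < γ) {k : ℕ} {e : Fin k → Td d → ℝ} (he : ∀ i, Continuous (e i)) :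
    ∀ᵐ w ∂lawL d, ∀ U : Fin (k + 1) → ℝ, Continuous (frc γ e U w) := by
  filter_upwards [Hw_ae (d := d) hγ] with w hw U
  unfold frc
  exact (continuous_finsetSum _ fun i _ => continuous_const.mul (he i)).add (continuous_const.mul (eta_cont hw))

theorem growth_of {γ τ : ℝ} (hγ : 0 < γ) {k : ℕ} {e : Fin k → Td d → ℝ} (he : ∀ i, Ho (e i)) {ε : ℝ} (hε : 0 < ε) (hε1 : ε < 2)
    (LA : ∀ (D : ℕ) (δ₀ : ℝ), 0 < δ₀ →
      ∃ δ : ℝ, 0 < δ ∧ δ < δ₀ ∧ ∀ᵐ w ∂lawL d, ∀ c₀ : ℝ, 0 < c₀ → ∃ (i₁ : ℕ) (A₁ : ℝ), ∀ i ≥ i₁, ∀ α : Td d, DC c₀ τ α →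
        ∀ (a : ℝ) (U : Fin (k + 1) → ℝ), A₁ ≤ |a| → |a| ≤ 2 ^ (D * i) → (∀ j, |U j| ≤ |a|) →
        Real.exp (-(2 : ℝ) ^ ((1 - 2 * δ) * i)) ≤ |U 0| →
        ml α a (frc γ e U w) (2 ^ i) ≤ (2 : ℝ) ^ ((1 - δ) * i))
    (IG : ∀ c : ℝ, 0 < c → c < 1 → ∃ C : ℝ, 1 ≤ C ∧ ∀ (d : ℕ) (α : Td d) (a : ℝ) (b : Td d → ℝ) (K : ℝ)
      (n : ℕ), Continuous b → 100 ≤ |a| → 4 ≤ K →
      n * Real.log (π * |a|) - n * (4 / K) - n * (n * (C * (K / a ^ 2) ^ c)) * Real.log (LL a) ≤ mg α a b n)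
    (DB : ∀ (α : Td d) (a : ℝ) (b : Td d → ℝ), Continuous b → ∀ m : ℕ, 2 * mg α a b m - ml α a b m ≤ mg α a b (2 * m)) :
    ∃ κ : ℝ, 0 < κ ∧ ∀ᵐ w ∂lawL d, ∀ c₀ : ℝ, 0 < c₀ → ∃ A₁ : ℝ, ∀ α : Td d, DC c₀ τ α →
      ∀ (a : ℝ) (U : Fin (k + 1) → ℝ), A₁ ≤ |a| → (∀ j, |U j| ≤ |a|) → Real.exp (-|a| ^ (2 - ε)) ≤ |U 0| →
      ∃ i₀ : ℕ, ∀ i ≥ i₀, Real.log (π * |a|) - |a| ^ (-κ) ≤ mg α a (frc γ e U w) (2 ^ i) / 2 ^ i := by
  obtain ⟨c, hcd⟩ : ∃ c : ℝ, c = 2 - ε / 2 := ⟨_, rfl⟩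
  have hc : 0 < c := by linarith
  have hc2 : c < 2 := by linarith
  have hδ₀ : 0 < min (c / 8) ((ε / 2) / 14) := lt_min (by positivity) (by positivity)
  obtain ⟨D, hD⟩ := exists_nat_ge (4 / c)
  obtain ⟨δ, hδ, hδ0, hlos⟩ := LA D _ hδ₀
  have hδ8 : δ < c / 8 := hδ0.trans_le (min_le_left _ _)
  have hδε : δ < (ε / 2) / 14 := hδ0.trans_le (min_le_right _ _)
  obtain ⟨Cn, hCn, hini⟩ := IG (c / 2) (by linarith) (by linarith)
  refine ⟨δ * c / 4, by positivity, ?_⟩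
  filter_upwards [hlos, frc_cont (d := d) hγ fun i => ho_contU77 (he i)] with w hw1 hw2
  intro c₀ hc₀
  obtain ⟨i₁, A₁, hi₁⟩ := hw1 c₀ hc₀
  have hr1 : (2 : ℝ) ^ (-δ) < 1 := Real.rpow_lt_one_of_one_lt_of_neg one_lt_two (by linarith)
  have hC₁0 : 0 ≤ 1 / (2 * (1 - (2 : ℝ) ^ (-δ))) := by
    have : 0 < 1 - (2 : ℝ) ^ (-δ) := by linarith
    positivity
  have hCn0 : 0 ≤ Cn := zero_le_one.trans hCn
  obtain ⟨X, hX⟩ := scalesU77 (ε := ε / 2) hδ hδ8 hδε hc2 one_pos hC₁0 hCn0 one_pos i₁ hD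
  refine ⟨max X (max A₁ 100), fun α hα a U hU hUa hU0 => ?_⟩
  obtain ⟨hx1, -, hV, i₀, hi0, h4, hqe, herr⟩ := hX |a| ((le_max_left _ _).trans hU)
  have hA₁ : A₁ ≤ |a| := (le_max_left _ _).trans ((le_max_right _ _).trans hU)
  have h100 : 100 ≤ |a| := (le_max_right _ _).trans ((le_max_right _ _).trans hU)
  have hcont := hw2 U
  set f := frc γ e U w with hf
  have hinit := hini d α a f (|a| ^ δ) (2 ^ i₀) hcont h100 hV
  have hdbl := dblseq77 (g := fun m => mg α a f m) (l := fun m => ml α a f m) hδ (i₀ := i₀) (DB α a f hcont) fun i hi => by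
    have hil : (i₀ : ℝ) ≤ i := by exact_mod_cast hi
    refine hi₁ i (hi0.trans hi) α hα a U hA₁
      (h4.trans (pow_le_pow_right₀ (by norm_num) (Nat.mul_le_mul_left D hi))) hUa ?_
    refine le_trans (Real.exp_le_exp.2 (neg_le_neg ?_)) hU0
    have hce : 2 - ε = c - ε / 2 := by rw [hcd]; ring
    rw [hce]
    refine hqe.trans (Real.rpow_le_rpow_of_exponent_le one_le_two ?_)
    exact mul_le_mul_of_nonneg_left hil (by linarith)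
  refine ⟨i₀, fun i hi => ?_⟩
  have h10 := hdbl i hi
  have hp2 : (0 : ℝ) < 2 ^ i₀ := by positivity
  have ha2 : a ^ 2 = (1 * |a|) ^ 2 := by rw [one_mul, sq_abs]
  have hLL : LL a = 2 * π * (1 * |a|) + 4 := by rw [one_mul]; rfl
  have h13 : Real.log (π * |a|) - 4 / |a| ^ δ -
      (2 : ℝ) ^ i₀ * (Cn * (|a| ^ δ / (1 * |a|) ^ 2) ^ (c / 2)) * Real.log (2 * π * (1 * |a|) + 4) ≤
      mg α a f (2 ^ i₀) / 2 ^ i₀ := by
    rw [le_div_iff₀ hp2, ← ha2, ← hLL]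
    refine le_trans (le_of_eq ?_) hinit
    push_cast
    ring
  linarith

end Pool.Agent.Helper77.AU
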