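import Pool.Agent.Helper77.AU.Growth
import Pool.Agent.Helper65.AU.LosAllFin
import Pool.Agent.Helper24.AU.Init
import Pool.Agent.Helper6.AU.Dbl

/-! # Project AU, block U5 without hypotheses -/

set_option autoImplicit false
open MeasureTheory Real Set Filter Topology
open scoped ENNReal

namespace Pool.Agent.Helper77.AU

open Pool.Agent.Helper46.QP (TT Td)
open Pool.Agent.Helper82.AN (lawL)
open Pool.Agent.Helper95.AF (frc DC Ho)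
open Pool.Agent.Helper95.AU

variable {d : ℕ}

/-- **U5**: growth -/
theorem growth (hd : 0 < d) {γ τ : ℝ} (hγ : 0 < γ) (h1 : 1 / (d : ℝ) ≤ τ) (h2 : τ * γ < 1) {k : ℕ}
    {e : Fin k → Td d → ℝ} (he : ∀ i, Ho (e i)) {ε : ℝ} (hε : 0 < ε) (hε1 : ε < 2) :
    ∃ κ : ℝ, 0 < κ ∧ ∀ᵐ w ∂lawL d, ∀ c₀ : ℝ, 0 < c₀ → ∃ A₁ : ℝ, ∀ α : Td d, DC c₀ τ α →
      ∀ (a : ℝ) (U : Fin (k + 1) → ℝ), A₁ ≤ |a| → (∀ j, |U j| ≤ |a|) → Real.exp (-|a| ^ (2 - ε)) ≤ |U 0| →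
      ∃ i₀ : ℕ, ∀ i ≥ i₀, Real.log (π * |a|) - |a| ^ (-κ) ≤ mg α a (frc γ e U w) (2 ^ i) / 2 ^ i :=
  growth_of hγ he hε hε1 (fun D _ hδ₀ => Pool.Agent.Helper65.AU.los_all hd hγ h1 h2 he D hδ₀)
    (fun _ hc hc1 => Pool.Agent.Helper24.AU.init_g hc hc1) (fun _ _ _ hb m => Pool.Agent.Helper6.AU.dbl hb m)

end Pool.Agent.Helper77.AU
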