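import Pool.Agent.Helper77.AU.Core

/-!
# Almost units: linear independence
-/

set_option autoImplicit false

namespace Pool.Agent.Helper77.AU

open NumberField
open Pool.Agent.V2
open Pool.Agent.Helper64.Vojta (Pl nv)
open Pool.Agent.Helper26.DMC
open Filter Topology
open Pool.Agent.Helper64.Vojta (nv_nonneg nv_mul nv_one nv_zero nv_pos nv_inv)

variable {K : Type*} [Field K] [NumberField K]

theorem AU.congr {U : Ultrafilter ℕ} {S : Finset (FinitePlace K)} {t : ℕ → ℝ} {a b : ℕ → K}
    (ha : AU U S t a) (h : ∀ᶠ j in (U : Filter ℕ), a j = b j) : AU U S t b := by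
  refine ⟨?_, ?_⟩
  · filter_upwards [ha.1, h] with j h1 h2
    rwa [← h2]
  · refine (tendsto_congr' ?_).mp ha.2
    filter_upwards [h] with j hj
    rw [hj]

theorem AU.mul {U : Ultrafilter ℕ} {S : Finset (FinitePlace K)} {t : ℕ → ℝ} {a b : ℕ → K}
    (ht : ∀ᶠ j in (U : Filter ℕ), 0 < t j) (ha : AU U S t a) (hb : AU U S t b) :
    AU U S t (fun j => a j * b j) := by
  refine ⟨?_, ?_⟩
  · filter_upwards [ha.1, hb.1] with j h1 h2
    exact mul_ne_zero h1 h2
  · have h := ha.2.add hb.2
    rw [add_zero] at h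
    refine tendsto_zero_of_le ?_ ?_ h
    · filter_upwards [ht] with j hj
      exact div_nonneg (out_nonneg S _) hj.le
    · filter_upwards [ht, ha.1, hb.1] with j hj h1 h2
      rw [← add_div]
      exact div_le_div_of_nonneg_right (out_mul_le S h1 h2) hj.le

theorem AU.inv {U : Ultrafilter ℕ} {S : Finset (FinitePlace K)} {t : ℕ → ℝ} {a : ℕ → K}
    (ha : AU U S t a) : AU U S t (fun j => (a j)⁻¹) := by
  refine ⟨?_, ?_⟩
  · filter_upwards [ha.1] with j h1
    exact inv_ne_zero h1
  · refine (tendsto_congr fun j => ?_).mp ha.2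
    rw [out_inv]

theorem AU.div {U : Ultrafilter ℕ} {S : Finset (FinitePlace K)} {t : ℕ → ℝ} {a b : ℕ → K}
    (ht : ∀ᶠ j in (U : Filter ℕ), 0 < t j) (ha : AU U S t a) (hb : AU U S t b) :
    AU U S t (fun j => a j / b j) := by
  simp_rw [div_eq_mul_inv]
  exact ha.mul ht hb.inv

/-- slow sequences are almost units -/
theorem Slow.au {U : Ultrafilter ℕ} (S : Finset (FinitePlace K)) {t : ℕ → ℝ} {a : ℕ → K}
    (ht : ∀ᶠ j in (U : Filter ℕ), 0 < t j) (ha : Slow U t a) (h0 : ∀ᶠ j in (U : Filter ℕ), a j ≠ 0) :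
    AU U S t a := by
  refine ⟨h0, ?_⟩
  have h := ha.const_mul 2
  rw [mul_zero] at h
  refine tendsto_zero_of_le ?_ ?_ h
  · filter_upwards [ht] with j hj
    exact div_nonneg (out_nonneg S _) hj.le
  · filter_upwards [ht, h0] with j hj h1
    rw [mul_div_assoc']
    exact div_le_div_of_nonneg_right (out_le S h1) hj.le

theorem AU.one {U : Ultrafilter ℕ} (S : Finset (FinitePlace K)) (t : ℕ → ℝ) :
    AU U S t (fun _ => (1 : K)) := by
  refine ⟨Eventually.of_forall fun _ => one_ne_zero, ?_⟩
  have h : out S (1 : K) = 0 := by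
    have h1 := out_le S (one_ne_zero (α := K))
    rw [Height.logHeight₁_one, mul_zero] at h1
    exact le_antisymm h1 (out_nonneg S 1)
  simp only [h, zero_div]
  exact tendsto_const_nhds

/-- change of the scale -/
theorem AU.scale {U : Ultrafilter ℕ} {S : Finset (FinitePlace K)} {t t' : ℕ → ℝ} {a : ℕ → K}
    (ha : AU U S t a) (c : ℝ) (hc : 0 < c) (ht : ∀ᶠ j in (U : Filter ℕ), 0 < t j)
    (h : ∀ᶠ j in (U : Filter ℕ), c * t j ≤ t' j) : AU U S t' a := by
  refine ⟨ha.1, ?_⟩
  have h1 := ha.2.const_mul c⁻¹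
  rw [mul_zero] at h1
  refine tendsto_zero_of_le ?_ ?_ h1
  · filter_upwards [ht, h] with j hj hj'
    exact div_nonneg (out_nonneg S _) ((mul_pos hc hj).le.trans hj')
  · filter_upwards [ht, h] with j hj hj'
    have h2 : 0 < c * t j := mul_pos hc hj
    calc out S (a j) / t' j ≤ out S (a j) / (c * t j) :=
          div_le_div_of_nonneg_left (out_nonneg S _) h2 hj'
      _ = c⁻¹ * (out S (a j) / t j) := by
          field_simp

/-- a sequence which is not slow has height at least `c t` -/
theorem not_slow {U : Ultrafilter ℕ} {t : ℕ → ℝ} {a : ℕ → K} (ht : ∀ᶠ j in (U : Filter ℕ), 0 < t j)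
    (h : ¬ Slow U t a) : ∃ c : ℝ, 0 < c ∧ ∀ᶠ j in (U : Filter ℕ), c * t j ≤ Height.logHeight₁ (a j) := by
  unfold Slow at h
  rw [Metric.tendsto_nhds] at h
  push Not at h
  obtain ⟨ε, hε, h2⟩ := h
  refine ⟨ε, hε, ?_⟩
  filter_upwards [h2, ht] with j hj htj
  rw [Real.dist_eq, sub_zero, abs_of_nonneg (div_nonneg (Height.zero_le_logHeight₁ _) htj.le),
    le_div_iff₀ htj] at hj
  exact hj

theorem core2 (U : Ultrafilter ℕ) (S : Finset (FinitePlace K)) (t : ℕ → ℝ) (ht : Tendsto t U atTop)
    {r : ℕ} (y : Fin r → ℕ → K) (i0 i1 : Fin r) (hi : i1 ≠ i0) (hy : ∀ i, AU U S t (y i))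
    (hne : ¬ Slow U t (fun j => y i1 j / y i0 j))
    (b : Fin r → K) (hb : ∀ i, b i ≠ 0) (hz : AU U S t (fun j => ∑ i, b i * y i j)) :
    ∃ W : Submodule K (Fin r → K), W ≠ ⊤ ∧ ∀ᶠ j in (U : Filter ℕ), (fun i => y i j) ∈ W := by
  classical
  have htpos : ∀ᶠ j in (U : Filter ℕ), 0 < t j := ht.eventually_gt_atTop 0
  set y' : ℕ → Fin r → K := fun j i => if y i0 j = 0 then 1 else y i j / y i0 j with hy'
  have h1 : ∀ j, y' j i0 = 1 := by
    intro j
    simp only [hy']
    split_ifs with h
    · rfl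
    · exact div_self h
  have h2 : ∀ i, AU U S t (fun j => y' j i) := by
    intro i
    refine ((hy i).div htpos (hy i0)).congr ?_
    filter_upwards [(hy i0).1] with j hj
    simp only [hy', hj, if_false]
  have h3 : AU U S t (fun j => ∑ i, b i * y' j i) := by
    refine (hz.div htpos (hy i0)).congr ?_
    filter_upwards [(hy i0).1] with j hj
    simp only [hy', hj, if_false]
    rw [Finset.sum_div]
    exact Finset.sum_congr rfl fun i _ => by ring
  have hy0 : ∀ j, y' j ≠ 0 := by
    intro j h
    have := h1 j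
    rw [h] at this
    exact zero_ne_one this
  obtain ⟨c, hc, hc'⟩ := not_slow htpos hne
  have h4 : ∀ᶠ j in (U : Filter ℕ), c * t j ≤ vH (y' j) := by
    filter_upwards [hc', (hy i0).1] with j hj hj0
    refine hj.trans ?_
    have h5 : y i1 j / y i0 j = y' j i1 := by
      simp only [hy', hj0, if_false]
    rw [h5, Height.logHeight₁_eq_logHeight]
    have hne0 : (![y' j i1, 1] : Fin 2 → K) ≠ 0 := by
      intro h
      have := congrFun h 1
      simp at this
    rw [← vH_eq hne0]
    refine gsum_mono (finS_vn hne0) (finS_vn (hy0 j)) fun v => ?_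
    refine Real.log_le_log (vn_pos v hne0) ?_
    refine vn_le v _ (vn_pos v (hy0 j)).le ?_
    intro i
    fin_cases i
    · exact le_vn v (y' j) i1
    · have := le_vn v (y' j) i0
      rw [h1] at this
      exact this
  have h5 : Tendsto (fun j => vH (y' j)) U atTop :=
    tendsto_atTop_mono' _ h4 (ht.const_mul_atTop hc)
  obtain ⟨W, hW, hW'⟩ := core1 U S y' i0 h1 (fun i => (h2 i).scale c hc htpos h4) b hb
    (h3.scale c hc htpos h4) h5
  refine ⟨W, hW, ?_⟩
  filter_upwards [hW', (hy i0).1] with j hj hj0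
  have : (fun i => y i j) = y i0 j • y' j := by
    funext i
    simp only [hy', hj0, if_false, Pi.smul_apply, smul_eq_mul]
    rw [mul_div_cancel₀ _ hj0]
  rw [this]
  exact W.smul_mem _ hj

theorem main_ind (U : Ultrafilter ℕ) (S : Finset (FinitePlace K)) (t : ℕ → ℝ) (ht : Tendsto t U atTop)
    {n : ℕ} (y : Fin n → ℕ → K) (hy : ∀ i, AU U S t (y i))
    (hne : ∀ i i', i ≠ i' → ¬ Slow U t (fun j => y i j / y i' j)) (k : ℕ) :
    ∀ c : Fin n → K, (∃ T : Finset (Fin n), T.card = k ∧ ∀ i, c i ≠ 0 ↔ i ∈ T) →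
      (∀ᶠ j in (U : Filter ℕ), ∑ i, c i * y i j = 0) → c = 0 := by
  classical
  have htpos : ∀ᶠ j in (U : Filter ℕ), 0 < t j := ht.eventually_gt_atTop 0
  induction k using Nat.strong_induction_on with
  | _ k ih =>
  rintro c ⟨T, hTk, hT⟩ hsum
  by_contra hc0
  obtain ⟨i0, hi0⟩ := Function.ne_iff.mp hc0
  have hi0' : c i0 ≠ 0 := hi0
  have hi0T : i0 ∈ T := (hT i0).mp hi0'
  set T' := T.erase i0 with hT'
  have hcT' : T'.card < k := by
    rw [hT', Finset.card_erase_of_mem hi0T, ← hTk]
    have : 0 < T.card := Finset.card_pos.mpr ⟨i0, hi0T⟩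
    omega
  -- the relation in the form y i0 = ∑ ...
  set r := T'.card with hr
  set f : Fin r ≃ T' := (T'.equivFin).symm with hf
  set b : Fin r → K := fun l => -(c (f l)) / c i0 with hb
  have hrel : ∀ᶠ j in (U : Filter ℕ), ∑ l, b l * y (f l) j = y i0 j := by
    filter_upwards [hsum] with j hj
    have h1 : ∑ i, c i * y i j = c i0 * y i0 j + ∑ i ∈ T', c i * y i j := by
      rw [hT', Finset.add_sum_erase T (fun i => c i * y i j) hi0T]
      refine (Finset.sum_subset (Finset.subset_univ T) ?_).symm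
      intro i _ hi
      have : c i = 0 := by
        by_contra h
        exact hi ((hT i).mp h)
      rw [this, zero_mul]
    have h2 : ∑ i ∈ T', c i * y i j = ∑ l, c (f l) * y (f l) j := by
      rw [← Finset.sum_coe_sort T' (fun i => c i * y i j)]
      exact (Equiv.sum_comp f (fun i : T' => c i * y i j)).symm
    have h3 : ∑ l, b l * y (f l) j = -(∑ l, c (f l) * y (f l) j) / c i0 := by
      rw [neg_div, Finset.sum_div, ← Finset.sum_neg_distrib]
      refine Finset.sum_congr rfl fun l _ => ?_
      simp only [hb]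
      ring
    rw [h3]
    rw [h1, h2] at hj
    have h4 : ∑ l, c (f l) * y (f l) j = -(c i0 * y i0 j) := by linear_combination hj
    rw [h4]
    field_simp
  have hfT : ∀ l, (f l : Fin n) ∈ T' := fun l => (f l).2
  have hfne : ∀ l, (f l : Fin n) ≠ i0 := fun l => Finset.ne_of_mem_erase (hfT l)
  have hbne : ∀ l, b l ≠ 0 := by
    intro l
    simp only [hb]
    refine div_ne_zero (neg_ne_zero.mpr ?_) hi0'
    exact (hT _).mpr (Finset.mem_of_mem_erase (hfT l))
  have hcase : r = 0 ∨ r = 1 ∨ 2 ≤ r := by omega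
  rcases hcase with h0 | h1 | h2
  · -- y i0 = 0
    have hE : IsEmpty (Fin r) := by
      rw [h0]
      infer_instance
    have h3 : ∀ᶠ j in (U : Filter ℕ), False := by
      filter_upwards [hrel, (hy i0).1] with j hj hj0
      rw [Finset.univ_eq_empty, Finset.sum_empty] at hj
      exact hj0 hj.symm
    rw [Filter.eventually_false_iff_eq_bot] at h3
    exact U.neBot.ne h3
  · have hl : ∃ l : Fin r, ∀ l', l' = l := by
      refine ⟨⟨0, by omega⟩, fun l' => Fin.ext ?_⟩
      have := l'.2
      have h4 : (l' : ℕ) = 0 := by omega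
      rw [h4]
    obtain ⟨l, hl⟩ := hl
    refine hne i0 (f l) (hfne l).symm ?_
    have h4 : ∀ᶠ j in (U : Filter ℕ), y i0 j / y (f l) j = b l := by
      filter_upwards [hrel, (hy (f l)).1] with j hj hj0
      rw [← hj, Fintype.sum_eq_single l (fun l' hl' => absurd (hl l') hl'), mul_div_cancel_right₀ _ hj0]
    unfold Slow
    have h5 : Tendsto (fun j => Height.logHeight₁ (b l) / t j) U (𝓝 0) :=
      tendsto_const_nhds.div_atTop ht
    refine (tendsto_congr' ?_).mpr h5
    filter_upwards [h4] with j hj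
    rw [hj]
  · -- core
    have hz : AU U S t (fun j => ∑ l, b l * y (f l) j) := by
      refine (hy i0).congr ?_
      filter_upwards [hrel] with j hj
      exact hj.symm
    have hl01 : (⟨1, by omega⟩ : Fin r) ≠ ⟨0, by omega⟩ := by
      intro h
      have := congrArg Fin.val h
      simp at this
    obtain ⟨W, hW, hW'⟩ := core2 U S t ht (fun l => y (f l)) ⟨0, by omega⟩ ⟨1, by omega⟩ hl01
      (fun l => hy _) (hne _ _ (by
        intro h
        exact hl01 (f.injective (Subtype.ext h)))) b hbne hz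
    obtain ⟨φ, hφ, hWφ⟩ := Submodule.exists_le_ker_of_lt_top W (lt_top_iff_ne_top.mpr hW)
    -- the new relation
    set c' : Fin n → K := fun i =>
      if h : i ∈ T' then φ (Pi.single (f.symm ⟨i, h⟩) 1) else 0 with hc'
    have hc'sum : ∀ᶠ j in (U : Filter ℕ), ∑ i, c' i * y i j = 0 := by
      filter_upwards [hW'] with j hj
      have h3 : φ (fun l => y (f l) j) = 0 := by
        have := hWφ hj
        rwa [LinearMap.mem_ker] at this
      have h4 : φ (fun l => y (f l) j) = ∑ l, y (f l) j * φ (Pi.single l 1) := by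
        conv_lhs => rw [← Finset.univ_sum_single (fun l => y (f l) j)]
        rw [map_sum]
        refine Finset.sum_congr rfl fun l _ => ?_
        have : (Pi.single l (y (f l) j) : Fin r → K) = y (f l) j • Pi.single l 1 := by
          rw [← Pi.single_smul, smul_eq_mul, mul_one]
        rw [this, map_smul, smul_eq_mul]
      have h5 : ∑ i, c' i * y i j = ∑ i ∈ T', c' i * y i j := by
        refine (Finset.sum_subset (Finset.subset_univ T') ?_).symm
        intro i _ hi
        simp only [hc', hi, dif_neg, not_false_iff, zero_mul]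
      have h6 : ∑ i ∈ T', c' i * y i j = ∑ l, c' (f l) * y (f l) j := by
        rw [← Finset.sum_coe_sort T' (fun i => c' i * y i j)]
        exact (Equiv.sum_comp f (fun i : T' => c' i * y i j)).symm
      rw [h5, h6, ← h3, h4]
      refine Finset.sum_congr rfl fun l _ => ?_
      have h7 : c' (f l) = φ (Pi.single l 1) := by
        simp only [hc', hfT l, dif_pos]
        congr 2
        exact f.symm_apply_apply l
      rw [h7, mul_comm]
    have hc'0 : c' = 0 := by
      refine ih (Finset.univ.filter fun i => c' i ≠ 0).card ?_ c'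
        ⟨Finset.univ.filter fun i => c' i ≠ 0, rfl, fun i => by simp⟩ hc'sum
      refine lt_of_le_of_lt (Finset.card_le_card ?_) hcT'
      intro i hi
      rw [Finset.mem_filter] at hi
      by_contra h
      exact hi.2 (by simp only [hc', h, dif_neg, not_false_iff])
    apply hφ
    refine LinearMap.pi_ext' fun l => ?_
    refine LinearMap.ext_ring ?_
    have h7 : c' (f l) = φ (Pi.single l 1) := by
      simp only [hc', hfT l, dif_pos]
      congr 2
      exact f.symm_apply_apply l
    have h8 : c' (f l) = 0 := by rw [hc'0]; rfl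
    rw [h7] at h8
    simpa using h8

/-- almost units such that no ratio is slow are linearly independent -/
theorem au_indep (U : Ultrafilter ℕ) (S : Finset (FinitePlace K)) (t : ℕ → ℝ) (ht : Tendsto t U atTop)
    {n : ℕ} (y : Fin n → ℕ → K) (hy : ∀ i, AU U S t (y i))
    (hne : ∀ i i', i ≠ i' → ¬ Slow U t (fun j => y i j / y i' j))
    (c : Fin n → K) (hsum : ∀ᶠ j in (U : Filter ℕ), ∑ i, c i * y i j = 0) : c = 0 := by
  classical
  exact main_ind U S t ht y hy hne (Finset.univ.filter fun i => c i ≠ 0).card c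
    ⟨Finset.univ.filter fun i => c i ≠ 0, rfl, fun i => by simp⟩ hsum

end Pool.Agent.Helper77.AU
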