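import Pool.Agent.Helper17.EXP.UnitsPlus
import Pool.Agent.Helper77.AU.Root

/-!
# The trivial upper bound of `∑ λ_D`
-/

set_option autoImplicit false

namespace Pool.Agent.Helper77.AU

open NumberField IntermediateField Pool.Agent.Helper64.Vojta Pool.Agent.VZ Pool.Agent.SL

universe u

variable {k : Type u} [Field k] [NumberField k]

theorem hgt_nonneg {n : ℕ} (y : Fin n → AlgebraicClosure k) : 0 ≤ hgt y :=
  div_nonneg (Height.logHeight_nonneg _) (dg_pos' y).le

theorem lam_le (S : Finset (Pl k)) {n q : ℕ} (r : ℕ) (ℓ : Fin q → Fin (n + 1) → k) :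
    ∃ c : ℝ, 0 ≤ c ∧ ∀ y : Fin n → AlgebraicClosure k, dg y ≤ r →
      (∀ i, ∑ j, algebraMap k (fld y) (ℓ i j) * crd y j ≠ 0) → lam ℓ S y ≤ q * hgt y + c := by
  classical
  obtain ⟨s, K, K', hs, hK, hK', hg⟩ := Pool.Agent.EXP.gg_props ℓ r
  set A : ℝ := q * K' + q * K' * (r * S.card) with hA
  have hA0 : 0 ≤ A := by positivity
  refine ⟨A, hA0, ?_⟩
  intro y hdg hne
  set x := crd y with hx
  have hx0 : x ≠ 0 := crd_ne y
  have hdgp := dg_pos' y
  have hhgt : (dg y : ℝ) * hgt y = Height.logHeight x := by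
    unfold hgt
    rw [mul_div_cancel₀ _ hdgp.ne']
  have hfd : FiniteDimensional k (fld y) :=
    finiteDimensional_adjoin fun x _ => Algebra.IsIntegral.isIntegral x
  have hdg1 : (1 : ℝ) ≤ dg y := by
    have : 0 < Module.finrank k (fld y) := Module.finrank_pos
    exact_mod_cast this
  set G : Fin q → Pl (fld y) → ℝ := fun i w => Pool.Agent.EXP.gg s K (ℓ i) x w with hG
  have hgW : ∀ i (W : Finset (Pl (fld y))), ∑ w ∈ W, G i w ≤ Height.logHeight x + K' :=
    fun i => (hg (fld y) hdg x hx0 i (hne i)).2.1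
  have hgl : ∀ i w, loc w (cst (ℓ i)) x ≤ G i w + K' := fun i => (hg (fld y) hdg x hx0 i (hne i)).2.2
  have hdisj : ∀ S' : Finset (Pl k), (S' : Set (Pl k)).PairwiseDisjoint (above (fld y)) := by
    intro S' a _ b _ hab
    rw [Function.onFun, Finset.disjoint_left]
    intro w hwa hwb
    exact hab (above_unique (mem_above.mp hwa) (mem_above.mp hwb))
  have hcard : ((S.biUnion (above (fld y))).card : ℝ) ≤ r * S.card := by
    have h1 : (S.biUnion (above (fld y))).card ≤ ∑ ν ∈ S, (above (fld y) ν).card :=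
      Finset.card_biUnion_le
    have h2 : ∑ ν ∈ S, (above (fld y) ν).card ≤ ∑ ν ∈ S, r :=
      Finset.sum_le_sum fun ν _ => (card_above_le ν).trans hdg
    rw [Finset.sum_const, smul_eq_mul, mul_comm] at h2
    exact_mod_cast h1.trans h2
  have hlam : (dg y : ℝ) * lam ℓ S y = ∑ i, ∑ w' ∈ S.biUnion (above (fld y)), loc w' (cst (ℓ i)) x := by
    unfold lam
    rw [mul_div_cancel₀ _ hdgp.ne', Finset.sum_comm (s := Finset.univ), Finset.sum_biUnion (hdisj S)]
    rfl
  have hlam2 : (dg y : ℝ) * lam ℓ S y ≤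
      ∑ i, ∑ w' ∈ S.biUnion (above (fld y)), G i w' + q * K' * (r * S.card) := by
    rw [hlam]
    have h1 : ∑ i, ∑ w' ∈ S.biUnion (above (fld y)), loc w' (cst (ℓ i)) x ≤
        ∑ i, ∑ w' ∈ S.biUnion (above (fld y)), (G i w' + K') :=
      Finset.sum_le_sum fun i _ => Finset.sum_le_sum fun w _ => hgl i w
    refine h1.trans ?_
    simp only [Finset.sum_add_distrib, Finset.sum_const, Finset.card_univ, Fintype.card_fin, nsmul_eq_mul]
    have h2 : (q : ℝ) * (((S.biUnion (above (fld y))).card : ℝ) * K') ≤ q * (r * S.card * K') :=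
      mul_le_mul_of_nonneg_left (mul_le_mul_of_nonneg_right hcard hK') (Nat.cast_nonneg _)
    linarith
  have hall : ∑ i, ∑ w' ∈ S.biUnion (above (fld y)), G i w' ≤ q * (Height.logHeight x + K') := by
    refine (Finset.sum_le_sum fun i _ => hgW i _).trans (le_of_eq ?_)
    rw [Finset.sum_const, Finset.card_univ, Fintype.card_fin, nsmul_eq_mul]
  rw [← hhgt] at hall
  have h1 : (dg y : ℝ) * lam ℓ S y ≤ dg y * (q * hgt y) + A := by
    rw [hA]
    linarith
  have h2 : (dg y : ℝ) * lam ℓ S y ≤ dg y * (q * hgt y + A) := by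
    rw [mul_add]
    nlinarith
  exact le_of_mul_le_mul_left h2 hdgp

end Pool.Agent.Helper77.AU
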